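import Pool.Agent.Helper3.PW.En

/-!
# Scaled bumps
-/

set_option autoImplicit false

namespace Pool.Agent.Helper3.PW

open MeasureTheory Pool.Agent.Helper95.PW

theorem bump_exists : ∃ b : R3 → ℝ, ContDiff ℝ (⊤ : ℕ∞) b ∧ HasCompactSupport b ∧
    tsupport b ⊆ Metric.closedBall 0 (1 / 4) ∧ ∫ y, b y ^ 2 = 1 := by
  let F : ContDiffBump (0 : R3) := ⟨1 / 8, 1 / 4, by norm_num, by norm_num⟩
  have hF : ContDiff ℝ (⊤ : ℕ∞) (F : R3 → ℝ) := F.contDiff
  have hFc : HasCompactSupport (F : R3 → ℝ) := F.hasCompactSupport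
  have hpos : 0 < ∫ y, F y ^ 2 := by
    apply Continuous.integral_pos_of_hasCompactSupport_nonneg_nonzero (x := (0 : R3))
    · exact hF.continuous.pow 2
    · exact hFc.comp_left (g := fun t : ℝ => t ^ 2) (by simp)
    · intro y
      exact sq_nonneg _
    · have : F (0 : R3) = 1 := F.one_of_mem_closedBall (by
        rw [Metric.mem_closedBall, dist_self]
        exact F.rIn_pos.le)
      rw [this]
      norm_num
  set c : ℝ := ∫ y, F y ^ 2 with hc
  have hs : Real.sqrt c ^ 2 = c := Real.sq_sqrt hpos.le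
  have hs0 : Real.sqrt c ≠ 0 := (Real.sqrt_pos.2 hpos).ne'
  refine ⟨fun y => (Real.sqrt c)⁻¹ * F y, contDiff_const.mul hF, hFc.mul_left, ?_, ?_⟩
  · have h1 : tsupport (fun y => (Real.sqrt c)⁻¹ * F y) ⊆ tsupport (F : R3 → ℝ) := by
      apply closure_mono
      intro y hy h0
      apply hy
      show (Real.sqrt c)⁻¹ * F y = 0
      rw [h0, mul_zero]
    refine h1.trans ?_
    rw [F.tsupport_eq]
  · have : ∀ y, ((Real.sqrt c)⁻¹ * F y) ^ 2 = c⁻¹ * F y ^ 2 := by
      intro y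
      rw [mul_pow, inv_pow, hs]
    simp_rw [this]
    rw [integral_const_mul, ← hc, inv_mul_cancel₀ hpos.ne']

/-- the scaled bump -/
noncomputable def fb (b : R3 → ℝ) (la : ℝ) (c : R3) (y : R3) : ℝ :=
  Real.sqrt (la ^ 3) * b (la • (y - c))

theorem fb_contDiff (b : R3 → ℝ) (hb : ContDiff ℝ (⊤ : ℕ∞) b) (la : ℝ) (c : R3) :
    ContDiff ℝ (⊤ : ℕ∞) (fb b la c) := by
  unfold fb
  exact contDiff_const.mul (hb.comp ((contDiff_id.sub contDiff_const).const_smul la))

theorem fb_supp (b : R3 → ℝ) (hb : tsupport b ⊆ Metric.closedBall 0 (1 / 4)) (la : ℝ)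
    (hla : 0 < la) (c : R3) (y : R3) (hy : y ∈ tsupport (fb b la c)) :
    ‖y - c‖ ≤ 1 / (4 * la) := by
  have hcl : IsClosed {y : R3 | ‖y - c‖ ≤ 1 / (4 * la)} :=
    isClosed_le (by fun_prop) continuous_const
  have hsub : tsupport (fb b la c) ⊆ {y : R3 | ‖y - c‖ ≤ 1 / (4 * la)} := by
    apply closure_minimal _ hcl
    intro z hz
    have h1 : b (la • (z - c)) ≠ 0 := by
      intro h0
      apply hz
      unfold fb
      rw [h0, mul_zero]
    have h2 := hb (subset_tsupport _ h1)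
    rw [mem_closedBall_zero_iff, norm_smul, Real.norm_eq_abs, abs_of_pos hla] at h2
    show ‖z - c‖ ≤ 1 / (4 * la)
    rw [le_div_iff₀ (by positivity)]
    nlinarith
  exact hsub hy

theorem fb_compact (b : R3 → ℝ) (hb : tsupport b ⊆ Metric.closedBall 0 (1 / 4)) (la : ℝ)
    (hla : 0 < la) (c : R3) : HasCompactSupport (fb b la c) := by
  apply HasCompactSupport.intro (K := Metric.closedBall c (1 / (4 * la)))
  · exact isCompact_closedBall _ _
  · intro y hy
    apply image_eq_zero_of_notMem_tsupport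
    intro h
    apply hy
    rw [mem_closedBall_iff_norm]
    exact fb_supp b hb la hla c y h

theorem int_scale (F : R3 → ℝ) (la : ℝ) (hla : 0 < la) (c : R3) :
    ∫ y, la ^ 3 * F (la • (y - c)) = ∫ y, F y := by
  rw [integral_const_mul, integral_sub_right_eq_self (fun y => F (la • y)) c,
    Measure.integral_comp_smul volume F la]
  have hf : Module.finrank ℝ R3 = 3 := by simp
  rw [hf, abs_of_pos (by positivity), smul_eq_mul, ← mul_assoc,
    mul_inv_cancel₀ (by positivity), one_mul]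

theorem fb_sq (b : R3 → ℝ) (hb : ∫ y, b y ^ 2 = 1) (la : ℝ) (hla : 0 < la) (c : R3) :
    ∫ y, fb b la c y ^ 2 = 1 := by
  have : ∀ y, fb b la c y ^ 2 = la ^ 3 * (fun z => b z ^ 2) (la • (y - c)) := by
    intro y
    unfold fb
    rw [mul_pow, Real.sq_sqrt (by positivity)]
  simp_rw [this]
  rw [int_scale (fun z => b z ^ 2) la hla c]
  exact hb

theorem fb_pd (b : R3 → ℝ) (hb : ContDiff ℝ (⊤ : ℕ∞) b) (la : ℝ) (c : R3) (i : Fin 3) (y : R3) :
    pd i (fb b la c) y = Real.sqrt (la ^ 3) * (la * pd i b (la • (y - c))) := by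
  unfold pd
  have hd : HasFDerivAt b (fderiv ℝ b (la • (y - c))) (la • (y - c)) :=
    (hb.differentiable (by simp) _).hasFDerivAt
  have hin : HasFDerivAt (fun z : R3 => la • (z - c)) (la • ContinuousLinearMap.id ℝ R3) y :=
    ((hasFDerivAt_id y).sub_const c).const_smul la
  have h := (hd.comp y hin).const_mul (Real.sqrt (la ^ 3))
  have e : fb b la c = fun z => Real.sqrt (la ^ 3) * (b ∘ fun z : R3 => la • (z - c)) z := rfl
  rw [e, h.fderiv]
  simp

theorem fb_kin (b : R3 → ℝ) (hb : ContDiff ℝ (⊤ : ℕ∞) b) (la : ℝ) (hla : 0 < la) (c : R3) :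
    ∑ i, ∫ y, pd i (fb b la c) y ^ 2 = la ^ 2 * ∑ i, ∫ y, pd i b y ^ 2 := by
  rw [Finset.mul_sum]
  apply Finset.sum_congr rfl
  intro i _
  have : ∀ y, pd i (fb b la c) y ^ 2 =
      la ^ 3 * (fun z => la ^ 2 * pd i b z ^ 2) (la • (y - c)) := by
    intro y
    rw [fb_pd b hb la c i y, mul_pow, Real.sq_sqrt (by positivity), mul_pow]
  simp_rw [this]
  rw [int_scale (fun z => la ^ 2 * pd i b z ^ 2) la hla c, integral_const_mul]

end Pool.Agent.Helper3.PW
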