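import Pool.Agent.Helper3.PW.Prod

/-!
# Energy of the antisymmetrised product
-/

set_option autoImplicit false

namespace Pool.Agent.Helper3.PW

open MeasureTheory Pool.Agent.Helper95.PW

variable {n : ℕ}

theorem nr_neg (y : R3) : nr (-y) = nr y := by
  unfold nr
  simp

theorem nr_sub_comm (y z : R3) : nr (y - z) = nr (z - y) := by
  rw [← nr_neg, neg_sub]

theorem nr_nonneg (y : R3) : 0 ≤ nr y := Real.sqrt_nonneg _

theorem nr_cont : Continuous nr := by
  unfold nr
  fun_prop

theorem rep_eq (x : Cf n) : rep x = (1 / 2) * ∑ k, ∑ l, 1 / nr (x k - x l) := by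
  have hd : ∀ k, 1 / nr (x k - x k) = 0 := by
    intro k
    have : nr (x k - x k) = 0 := by
      unfold nr
      simp
    rw [this, div_zero]
  have h1 : ∑ k, ∑ l, 1 / nr (x k - x l) =
      (∑ k, ∑ l, if k < l then 1 / nr (x k - x l) else 0) +
      ∑ k, ∑ l, if l < k then 1 / nr (x k - x l) else 0 := by
    rw [← Finset.sum_add_distrib]
    apply Finset.sum_congr rfl
    intro k _
    rw [← Finset.sum_add_distrib]
    apply Finset.sum_congr rfl
    intro l _
    rcases lt_trichotomy k l with h | h | h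
    · rw [if_pos h, if_neg (not_lt.2 h.le), add_zero]
    · rw [h, if_neg (lt_irrefl l), hd, add_zero]
    · rw [if_neg (not_lt.2 h.le), if_pos h, zero_add]
  have h2 : (∑ k, ∑ l, if l < k then 1 / nr (x k - x l) else 0) =
      ∑ k, ∑ l, if k < l then 1 / nr (x k - x l) else 0 := by
    rw [Finset.sum_comm]
    apply Finset.sum_congr rfl
    intro k _
    apply Finset.sum_congr rfl
    intro l _
    rw [nr_sub_comm]
  rw [h1, h2]
  unfold rep
  ring

theorem rep_perm (σ : Equiv.Perm (Fin n)) (x : Cf n) : rep (fun i => x (σ i)) = rep x := by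
  rw [rep_eq, rep_eq, ← Equiv.sum_comp σ (fun k => ∑ l, 1 / nr (x k - x l))]
  congr 1
  apply Finset.sum_congr rfl
  intro k _
  exact Equiv.sum_comp σ (fun l => 1 / nr (x (σ k) - x l))

theorem att_perm (σ : Equiv.Perm (Fin n)) (x : Cf n) : att (fun i => x (σ i)) = att x := by
  unfold att
  exact Equiv.sum_comp σ (fun k => 1 / nr (x k))

theorem rep_nonneg (x : Cf n) : 0 ≤ rep x := by
  rw [rep_eq]
  apply mul_nonneg (by norm_num)
  exact Finset.sum_nonneg fun k _ => Finset.sum_nonneg fun l _ =>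
    div_nonneg zero_le_one (nr_nonneg _)

/-- the trial function: all spins equal -/
noncomputable def wv (f : Fin n → R3 → ℝ) : Wf n := fun s => if s = (fun _ => 0) then ps f else 0

theorem wv_Sm (f : Fin n → R3 → ℝ) (hf : ∀ l, ContDiff ℝ (⊤ : ℕ∞) (f l))
    (hc : ∀ l, HasCompactSupport (f l)) : Sm (wv f) := by
  intro s
  unfold wv
  split_ifs
  · exact ⟨ps_contDiff f hf, ps_compact f hc⟩
  · exact ⟨contDiff_const, HasCompactSupport.zero⟩

theorem wv_Anti (f : Fin n → R3 → ℝ) : Anti (wv f) := by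
  intro π s x
  unfold wv
  by_cases h : s = fun _ => 0
  · rw [if_pos h, if_pos (by rw [h]), ps_anti]
  · have h' : ¬ (fun i => s (π i)) = fun _ => 0 := by
      intro e
      apply h
      funext j
      have := congrFun e (π⁻¹ j)
      simpa using this
    rw [if_neg h, if_neg h']
    simp

theorem sum_wv (f : Fin n → R3 → ℝ) (F : (Cf n → ℝ) → ℝ) (h0 : F 0 = 0) :
    ∑ s, F (wv f s) = F (ps f) := by
  rw [Finset.sum_eq_single (fun _ => (0 : Fin 2))]
  · unfold wv
    rw [if_pos rfl]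
  · intro s _ hs
    unfold wv
    rw [if_neg hs, h0]
  · intro h
    exact absurd (Finset.mem_univ _) h

theorem sq_wv (f : Fin n → R3 → ℝ) : Helper95.PW.sq (wv f) = ∫ x, ps f x ^ 2 := by
  unfold Helper95.PW.sq
  exact sum_wv f (fun u => ∫ x, u x ^ 2) (by simp)

theorem dv_zero (k : Fin n) (i : Fin 3) : dv k i (0 : Cf n → ℝ) = 0 := by
  funext x
  unfold dv
  simp

theorem kin_wv (f : Fin n → R3 → ℝ) : kin (wv f) = ∑ k, ∑ i, ∫ x, dv k i (ps f) x ^ 2 := by
  unfold kin Helper95.PW.sq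
  apply Finset.sum_congr rfl
  intro k _
  apply Finset.sum_congr rfl
  intro i _
  exact sum_wv f (fun u => ∫ x, dv k i u x ^ 2) (by simp [dv_zero])

theorem pair_wv (f : Fin n → R3 → ℝ) : pair (wv f) = ∫ x, rep x * ps f x ^ 2 := by
  unfold pair
  exact sum_wv f (fun u => ∫ x, rep x * u x ^ 2) (by simp)

theorem one_wv (f : Fin n → R3 → ℝ) :
    one (fun y => 1 / nr y) (wv f) = ∫ x, att x * ps f x ^ 2 := by
  unfold one
  exact sum_wv f (fun u => ∫ x, (∑ k, 1 / nr (x k)) * u x ^ 2) (by simp)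

theorem pf_sq_int (g : Fin n → R3 → ℝ) (hg : ∀ l, ContDiff ℝ (⊤ : ℕ∞) (g l))
    (hc : ∀ l, HasCompactSupport (g l)) : Integrable (fun x => pf g x ^ 2) := by
  have h1 : Continuous (fun x => pf g x ^ 2) := (pf_contDiff g hg).continuous.pow 2
  apply h1.integrable_of_hasCompactSupport
  exact (pf_compact g hc).comp_left (g := fun t : ℝ => t ^ 2) (by simp)

theorem int_ps_sq (f : Fin n → R3 → ℝ) (hf : ∀ l, ContDiff ℝ (⊤ : ℕ∞) (f l))
    (hc : ∀ l, HasCompactSupport (f l))
    (hd : ∀ i j y, y ∈ tsupport (f i) → y ∈ tsupport (f j) → i = j)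
    (hn : ∀ l, ∫ y, f l y ^ 2 = 1) :
    ∫ x, ps f x ^ 2 = (Fintype.card (Equiv.Perm (Fin n)) : ℝ) := by
  simp_rw [ps_sq f hd]
  rw [integral_finsetSum]
  · simp only [int_pf_sq, hn, Finset.prod_const_one, Finset.sum_const, nsmul_eq_mul, mul_one]
    rfl
  · intro σ _
    exact pf_sq_int _ (fun l => hf _) (fun l => hc _)

theorem pd_contDiff (g : R3 → ℝ) (hg : ContDiff ℝ (⊤ : ℕ∞) g) (i : Fin 3) :
    ContDiff ℝ (⊤ : ℕ∞) (pd i g) := by
  unfold pd
  exact (hg.fderiv_right (by simp)).clm_apply contDiff_const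

theorem pd_compact (g : R3 → ℝ) (hg : HasCompactSupport g) (i : Fin 3) :
    HasCompactSupport (pd i g) := by
  unfold pd
  exact hg.fderiv_apply ℝ _

theorem int_dv_ps (f : Fin n → R3 → ℝ) (hf : ∀ l, ContDiff ℝ (⊤ : ℕ∞) (f l))
    (hc : ∀ l, HasCompactSupport (f l))
    (hd : ∀ i j y, y ∈ tsupport (f i) → y ∈ tsupport (f j) → i = j)
    (hn : ∀ l, ∫ y, f l y ^ 2 = 1) (k : Fin n) (i : Fin 3) :
    ∫ x, dv k i (ps f) x ^ 2 = ∑ σ : Equiv.Perm (Fin n), ∫ y, pd i (f (σ⁻¹ k)) y ^ 2 := by
  classical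
  simp_rw [dv_ps_sq f hf hd]
  have hdf : ∀ l, Differentiable ℝ (f l) := fun l => (hf l).differentiable (by simp)
  have e : ∀ (σ : Equiv.Perm (Fin n)) (x : Cf n), dv k i (pf (fun l => f (σ⁻¹ l))) x =
      pf (Function.update (fun l => f (σ⁻¹ l)) k (pd i (f (σ⁻¹ k)))) x := by
    intro σ x
    exact dv_pf _ (fun l => hdf _) k i x
  simp_rw [e]
  rw [integral_finsetSum]
  · apply Finset.sum_congr rfl
    intro σ _
    rw [int_pf_sq, ← Finset.mul_prod_erase Finset.univ _ (Finset.mem_univ k),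
      Function.update_self, Finset.prod_eq_one, mul_one]
    intro l hl
    rw [Function.update_of_ne (Finset.ne_of_mem_erase hl)]
    exact hn _
  · intro σ _
    apply pf_sq_int
    · intro l
      by_cases h : l = k
      · rw [h, Function.update_self]
        exact pd_contDiff _ (hf _) i
      · rw [Function.update_of_ne h]
        exact hf _
    · intro l
      by_cases h : l = k
      · rw [h, Function.update_self]
        exact pd_compact _ (hc _) i
      · rw [Function.update_of_ne h]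
        exact hc _

/-- there is a trial function with energy at most `B` times the square of the norm -/
def Tr (n : ℕ) (Z B : ℝ) : Prop :=
  ∃ ψ : Wf n, Sm ψ ∧ Anti ψ ∧ 0 < Helper95.PW.sq ψ ∧ Q Z ψ ≤ B * Helper95.PW.sq ψ

theorem Tr.mono {n : ℕ} {Z B C : ℝ} (h : Tr n Z B) (hBC : B ≤ C) : Tr n Z C := by
  obtain ⟨ψ, h1, h2, h3, h4⟩ := h
  exact ⟨ψ, h1, h2, h3, h4.trans (mul_le_mul_of_nonneg_right hBC h3.le)⟩

/-- the energy bound for a product of bumps with disjoint supports -/
theorem trial_energy (f : Fin n → R3 → ℝ) (hf : ∀ l, ContDiff ℝ (⊤ : ℕ∞) (f l))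
    (hc : ∀ l, HasCompactSupport (f l))
    (hd : ∀ i j y, y ∈ tsupport (f i) → y ∈ tsupport (f j) → i = j)
    (hn : ∀ l, ∫ y, f l y ^ 2 = 1) (kk : Fin n → ℝ)
    (hkin : ∀ l, ∑ i, ∫ y, pd i (f l) y ^ 2 ≤ kk l) (R₀ A₀ : ℝ) (hA0 : 0 ≤ A₀)
    (hrep : ∀ x : Cf n, (∀ l, x l ∈ tsupport (f l)) → rep x ≤ R₀)
    (hatt : ∀ x : Cf n, (∀ l, x l ∈ tsupport (f l)) → A₀ ≤ att x) (δ : ℝ) (hδ : 0 < δ)
    (hδ' : ∀ l y, y ∈ tsupport (f l) → δ ≤ nr y) (Z : ℝ) (hZ : 0 ≤ Z) :
    Tr n Z (∑ l, kk l + R₀ - Z * A₀) := by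
  classical
  set N : ℝ := (Fintype.card (Equiv.Perm (Fin n)) : ℝ) with hN
  have hNpos : 0 < N := by
    rw [hN]
    exact_mod_cast Fintype.card_pos
  have hsq : Helper95.PW.sq (wv f) = N := by rw [sq_wv, int_ps_sq f hf hc hd hn]
  -- the kinetic energy
  have hK : kin (wv f) ≤ N * ∑ l, kk l := by
    rw [kin_wv]
    calc ∑ k, ∑ i, ∫ x, dv k i (ps f) x ^ 2
        = ∑ k, ∑ i, ∑ σ : Equiv.Perm (Fin n), ∫ y, pd i (f (σ⁻¹ k)) y ^ 2 := by
          apply Finset.sum_congr rfl
          intro k _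
          apply Finset.sum_congr rfl
          intro i _
          exact int_dv_ps f hf hc hd hn k i
      _ = ∑ σ : Equiv.Perm (Fin n), ∑ k, ∑ i, ∫ y, pd i (f (σ⁻¹ k)) y ^ 2 := by
          rw [Finset.sum_comm]
          have : ∀ k : Fin n, ∑ i, ∑ σ : Equiv.Perm (Fin n), ∫ y, pd i (f (σ⁻¹ k)) y ^ 2 =
              ∑ σ : Equiv.Perm (Fin n), ∑ i, ∫ y, pd i (f (σ⁻¹ k)) y ^ 2 := by
            intro k
            rw [Finset.sum_comm]
          rw [Finset.sum_comm]
          simp_rw [this]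
          rw [Finset.sum_comm]
      _ ≤ ∑ σ : Equiv.Perm (Fin n), ∑ l, kk l := by
          apply Finset.sum_le_sum
          intro σ _
          rw [← Equiv.sum_comp σ⁻¹ kk]
          apply Finset.sum_le_sum
          intro k _
          exact hkin (σ⁻¹ k)
      _ = N * ∑ l, kk l := by
          rw [Finset.sum_const, nsmul_eq_mul, hN]
          rfl
  -- on the support
  have hsupp : ∀ x, ps f x ≠ 0 → ∃ σ : Equiv.Perm (Fin n), ∀ l, x (σ l) ∈ tsupport (f l) := by
    intro x hx
    by_contra hcon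
    push Not at hcon
    apply hx
    unfold ps
    apply Finset.sum_eq_zero
    intro σ _
    obtain ⟨l, hl⟩ := hcon σ
    have : x ∉ tsupport (pf (fun l => f (σ⁻¹ l))) := by
      intro h
      have h2 := pf_tsupport _ x h (σ l)
      apply hl
      simpa using h2
    rw [image_eq_zero_of_notMem_tsupport this, mul_zero]
  have hint : Integrable (fun x => ps f x ^ 2) := by
    have h1 : Continuous (fun x => ps f x ^ 2) := (ps_contDiff f hf).continuous.pow 2
    apply h1.integrable_of_hasCompactSupport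
    exact (ps_compact f hc).comp_left (g := fun t : ℝ => t ^ 2) (by simp)
  have hintval : ∫ x, ps f x ^ 2 = N := by rw [← sq_wv, hsq]
  have hP : pair (wv f) ≤ R₀ * N := by
    rw [pair_wv, ← hintval, ← integral_const_mul]
    apply integral_mono_of_nonneg
    · exact Filter.Eventually.of_forall fun x => mul_nonneg (rep_nonneg x) (sq_nonneg _)
    · exact hint.const_mul _
    · refine Filter.Eventually.of_forall fun x => ?_
      show rep x * ps f x ^ 2 ≤ R₀ * ps f x ^ 2
      by_cases hx : ps f x = 0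
      · rw [hx]; simp
      · obtain ⟨σ, hσ⟩ := hsupp x hx
        have := hrep (fun i => x (σ i)) hσ
        rw [rep_perm] at this
        exact mul_le_mul_of_nonneg_right this (sq_nonneg _)
  have hattup : ∀ x, ps f x ≠ 0 → att x ≤ n * (1 / δ) := by
    intro x hx
    obtain ⟨σ, hσ⟩ := hsupp x hx
    rw [← att_perm σ]
    unfold att
    calc ∑ k, 1 / nr (x (σ k)) ≤ ∑ k : Fin n, 1 / δ := by
          apply Finset.sum_le_sum
          intro k _
          exact one_div_le_one_div_of_le hδ (hδ' k _ (hσ k))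
      _ = n * (1 / δ) := by simp
  have hattm : Measurable (fun x : Cf n => att x) := by
    unfold att
    apply Finset.measurable_sum
    intro k _
    exact measurable_const.div (nr_cont.measurable.comp (measurable_pi_apply k))
  have hA : A₀ * N ≤ one (fun y => 1 / nr y) (wv f) := by
    rw [one_wv, ← hintval, ← integral_const_mul]
    apply integral_mono_of_nonneg
    · exact Filter.Eventually.of_forall fun x => mul_nonneg hA0 (sq_nonneg _)
    · refine (hint.const_mul (n * (1 / δ))).mono' ?_ ?_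
      · exact (hattm.mul ((ps_contDiff f hf).continuous.pow 2).measurable).aestronglyMeasurable
      · refine Filter.Eventually.of_forall fun x => ?_
        have ha : 0 ≤ att x := Finset.sum_nonneg fun k _ => div_nonneg zero_le_one (nr_nonneg _)
        rw [Real.norm_eq_abs, abs_of_nonneg (mul_nonneg ha (sq_nonneg _))]
        by_cases hx : ps f x = 0
        · rw [hx]; simp
        · exact mul_le_mul_of_nonneg_right (hattup x hx) (sq_nonneg _)
    · refine Filter.Eventually.of_forall fun x => ?_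
      show A₀ * ps f x ^ 2 ≤ att x * ps f x ^ 2
      by_cases hx : ps f x = 0
      · rw [hx]; simp
      · obtain ⟨σ, hσ⟩ := hsupp x hx
        have := hatt (fun i => x (σ i)) hσ
        rw [att_perm] at this
        exact mul_le_mul_of_nonneg_right this (sq_nonneg _)
  refine ⟨wv f, wv_Sm f hf hc, wv_Anti f, by rw [hsq]; exact hNpos, ?_⟩
  unfold Q
  rw [hsq]
  have h2 : Z * (A₀ * N) ≤ Z * one (fun y => 1 / nr y) (wv f) := mul_le_mul_of_nonneg_left hA hZ
  nlinarith

end Pool.Agent.Helper3.PW
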