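import Pool.Agent.Helper3.PW.Geo

/-!
# The energy of the neutral atom is at most `- c n^(7/3)`
-/

set_option autoImplicit false

namespace Pool.Agent.Helper3.PW

open MeasureTheory Pool.Agent.Helper95.PW

/-- the part of the repulsion between two inner bumps -/
noncomputable def Sr (m r : ℕ) (a : ℝ) : Ix m r → Ix m r → ℝ
  | Sum.inl j, Sum.inl k => if k = j then 0 else 2 / a * (1 / Dm j k)
  | _, _ => 0

theorem Dm_nonneg {m : ℕ} (j k : Fin 3 → Fin m) : 0 ≤ Dm j k := norm_nonneg _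

theorem Sr_nonneg (m r : ℕ) (a : ℝ) (ha : 0 < a) (u v : Ix m r) : 0 ≤ Sr m r a u v := by
  rcases u with j | t <;> rcases v with k | t'
  · show 0 ≤ if k = j then (0:ℝ) else 2 / a * (1 / Dm j k)
    split_ifs
    · exact le_rfl
    · have := Dm_nonneg j k
      positivity
  · exact le_rfl
  · exact le_rfl
  · exact le_rfl

theorem Sr_sum (m r : ℕ) (a : ℝ) (ha : 0 < a) :
    ∑ u : Ix m r, ∑ v : Ix m r, Sr m r a u v ≤ 64 * (m : ℝ) ^ 5 / a := by
  have h1 : ∑ u : Ix m r, ∑ v : Ix m r, Sr m r a u v =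
      ∑ j : Fin 3 → Fin m, ∑ k : Fin 3 → Fin m, if k = j then (0:ℝ) else 2 / a * (1 / Dm j k) := by
    rw [Fintype.sum_sum_type]
    have z1 : ∑ t : Fin r, ∑ v : Ix m r, Sr m r a (Sum.inr t) v = 0 := by
      apply Finset.sum_eq_zero
      intro t _
      apply Finset.sum_eq_zero
      intro v _
      rcases v with k | t' <;> rfl
    rw [z1, add_zero]
    apply Finset.sum_congr rfl
    intro j _
    rw [Fintype.sum_sum_type]
    have z2 : ∑ t : Fin r, Sr m r a (Sum.inl j) (Sum.inr t) = 0 := by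
      apply Finset.sum_eq_zero
      intro t _
      rfl
    rw [z2, add_zero]
    rfl
  rw [h1]
  have h2 : ∀ j : Fin 3 → Fin m, (∑ k : Fin 3 → Fin m,
      if k = j then (0:ℝ) else 2 / a * (1 / Dm j k)) ≤ 2 / a * (32 * (m : ℝ) ^ 2) := by
    intro j
    have h3 : (∑ k : Fin 3 → Fin m, if k = j then (0:ℝ) else 2 / a * (1 / Dm j k)) =
        ∑ k ∈ Finset.univ.erase j, 2 / a * (1 / Dm j k) := by
      rw [← Finset.add_sum_erase Finset.univ _ (Finset.mem_univ j), if_pos rfl, zero_add]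
      apply Finset.sum_congr rfl
      intro k hk
      rw [if_neg (Finset.ne_of_mem_erase hk)]
    rw [h3, ← Finset.mul_sum]
    apply mul_le_mul_of_nonneg_left _ (by positivity)
    exact lat_sum m j (fun k => Dm j k) (fun k hk => ⟨Dm_one j k hk, fun l => Dm_ge j k l⟩)
  calc _ ≤ ∑ j : Fin 3 → Fin m, 2 / a * (32 * (m : ℝ) ^ 2) := Finset.sum_le_sum fun j _ => h2 j
    _ = (m : ℝ) ^ 3 * (2 / a * (32 * (m : ℝ) ^ 2)) := by
        rw [Finset.sum_const, nsmul_eq_mul]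
        simp
    _ = 64 * (m : ℝ) ^ 5 / a := by
        field_simp
        ring

theorem lam_pos (m r : ℕ) (a : ℝ) (ha : 0 < a) (u : Ix m r) : 0 < lam m r a u := by
  rcases u with j | t
  · show 0 < 1 / a
    positivity
  · exact one_pos

theorem rad_inl (m r : ℕ) (a : ℝ) (j : Fin 3 → Fin m) :
    1 / (4 * lam m r a (Sum.inl j)) = a / 4 := by
  show 1 / (4 * (1 / a)) = a / 4
  rw [mul_one_div, one_div_div]

theorem rad_inr (m r : ℕ) (a : ℝ) (t : Fin r) : 1 / (4 * lam m r a (Sum.inr t)) = 1 / 4 := by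
  show 1 / (4 * (1 : ℝ)) = 1 / 4
  norm_num

theorem sep {m r : ℕ} (a D : ℝ) (ha : 0 < a) (hD : 1 + 3 * a * m ≤ D) (hm : 1 ≤ m) (u v : Ix m r)
    (huv : v ≠ u) (x y : R3) (hx : ‖x - cen m r a D u‖ ≤ 1 / (4 * lam m r a u))
    (hy : ‖y - cen m r a D v‖ ≤ 1 / (4 * lam m r a v)) :
    0 < ‖x - y‖ ∧ 1 / nr (x - y) ≤ 2 / D + Sr m r a u v := by
  have hm' : (1 : ℝ) ≤ m := by exact_mod_cast hm
  have hD1 : 1 ≤ D := by nlinarith [mul_pos ha (lt_of_lt_of_le one_pos hm')]
  have out : D / 2 ≤ ‖x - y‖ → 0 < ‖x - y‖ ∧ 1 / nr (x - y) ≤ 2 / D + Sr m r a u v := by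
    intro h
    have h0 : 0 < ‖x - y‖ := by linarith
    refine ⟨h0, ?_⟩
    have h1 : 1 / nr (x - y) ≤ 2 / D := by
      have h2 : D / 2 ≤ nr (x - y) := h.trans (norm_le_nr _)
      calc 1 / nr (x - y) ≤ 1 / (D / 2) := one_div_le_one_div_of_le (by linarith) h2
        _ = 2 / D := by rw [one_div_div]
    have := Sr_nonneg m r a ha u v
    linarith
  rcases u with j | t <;> rcases v with k | t'
  · rw [rad_inl] at hx hy
    have hkj : k ≠ j := fun e => huv (by rw [e])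
    have h := dist_in r a D ha j k hkj x y hx hy
    have h1 := Dm_one j k hkj
    have hpos : 0 < a / 2 * Dm j k := by positivity
    refine ⟨lt_of_lt_of_le hpos h, ?_⟩
    have h2 : 1 / nr (x - y) ≤ 2 / a * (1 / Dm j k) := by
      calc 1 / nr (x - y) ≤ 1 / (a / 2 * Dm j k) :=
            one_div_le_one_div_of_le hpos (h.trans (norm_le_nr _))
        _ = 2 / a * (1 / Dm j k) := by
            field_simp
    have h3 : Sr m r a (Sum.inl j) (Sum.inl k) = 2 / a * (1 / Dm j k) := by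
      show (if k = j then (0:ℝ) else 2 / a * (1 / Dm j k)) = _
      rw [if_neg hkj]
    rw [h3]
    have : 0 ≤ 2 / D := by positivity
    linarith
  · rw [rad_inl] at hx
    rw [rad_inr] at hy
    exact out (dist_out r a D ha hD hm j t' x y hx hy)
  · rw [rad_inr] at hx
    rw [rad_inl] at hy
    apply out
    rw [norm_sub_rev]
    exact dist_out r a D ha hD hm k t y x hy hx
  · rw [rad_inr] at hx hy
    exact out (dist_outout r a D hD1 t t' (fun e => huv (by rw [e])) x y hx hy)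

theorem cen_far {m r : ℕ} (a D : ℝ) (ha : 0 < a) (hD : 1 ≤ D) (u : Ix m r) (y : R3)
    (hy : ‖y - cen m r a D u‖ ≤ 1 / (4 * lam m r a u)) : min (3 * a / 4) (3 / 4) ≤ nr y := by
  refine le_trans ?_ (norm_le_nr y)
  refine le_trans ?_ (norm_le_pi_norm y 0)
  rw [Real.norm_eq_abs]
  refine le_trans ?_ (le_abs_self _)
  rcases u with j | t
  · rw [rad_inl] at hy
    have h1 := (norm_le_pi_norm (y - cen m r a D (Sum.inl j)) 0).trans hy
    have c1 : cen m r a D (Sum.inl j) 0 = a * (((j 0 : ℕ) : ℝ) + 1) := rfl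
    rw [Real.norm_eq_abs, Pi.sub_apply, c1, abs_le] at h1
    refine (min_le_left _ _).trans ?_
    have : (0 : ℝ) ≤ ((j 0 : ℕ) : ℝ) := Nat.cast_nonneg _
    nlinarith [h1.1]
  · rw [rad_inr] at hy
    have h1 := (norm_le_pi_norm (y - cen m r a D (Sum.inr t)) 0).trans hy
    have c2 : cen m r a D (Sum.inr t) 0 = D * (((t : ℕ) : ℝ) + 1) := by simp [cen]
    rw [Real.norm_eq_abs, Pi.sub_apply, c2, abs_le] at h1
    refine (min_le_right _ _).trans ?_
    have : (0 : ℝ) ≤ ((t : ℕ) : ℝ) := Nat.cast_nonneg _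
    nlinarith [h1.1]

theorem cen_near {m r : ℕ} (a D : ℝ) (ha : 0 < a) (hm : 1 ≤ m) (j : Fin 3 → Fin m) (y : R3)
    (hy : ‖y - cen m r a D (Sum.inl j)‖ ≤ a / 4) : nr y ≤ 3 * (a * m) := by
  have hm' : (1 : ℝ) ≤ m := by exact_mod_cast hm
  have ham : a ≤ a * m := by nlinarith
  apply nr_le y (a * m) (by positivity)
  have h1 : ‖cen m r a D (Sum.inl j)‖ ≤ a * m := by
    apply (pi_norm_le_iff_of_nonneg (by positivity)).2
    intro l
    have hj : ((j l : ℕ) : ℝ) + 1 ≤ m := by exact_mod_cast (j l).2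
    show ‖a * (((j l : ℕ) : ℝ) + 1)‖ ≤ a * m
    rw [Real.norm_eq_abs, abs_of_nonneg (by positivity)]
    exact mul_le_mul_of_nonneg_left hj ha.le
  have h2 : ‖y‖ ≤ ‖y - cen m r a D (Sum.inl j)‖ + ‖cen m r a D (Sum.inl j)‖ := by
    have := norm_add_le (y - cen m r a D (Sum.inl j)) (cen m r a D (Sum.inl j))
    rwa [sub_add_cancel] at this
  linarith

theorem en_bound (b : R3 → ℝ) (hb : ContDiff ℝ (⊤ : ℕ∞) b)
    (hs : tsupport b ⊆ Metric.closedBall 0 (1 / 4)) (hn : ∫ y, b y ^ 2 = 1) (Kb : ℝ)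
    (hK : ∑ i, ∫ y, pd i b y ^ 2 ≤ Kb) (m n : ℕ) (hm : 1 ≤ m) (hmn : m ^ 3 ≤ n) (a : ℝ)
    (ha : 0 < a) : Tr n n
    ((m : ℝ) ^ 3 * Kb / a ^ 2 + n * Kb + 32 * (m : ℝ) ^ 5 / a + 1 - n * ((m : ℝ) ^ 2 / (3 * a))) := by
  classical
  set r : ℕ := n - m ^ 3 with hr
  set D : ℝ := (n : ℝ) ^ 2 + (1 + 3 * a * m) with hDd
  have hm' : (1 : ℝ) ≤ m := by exact_mod_cast hm
  have hm0 : (0 : ℝ) < m := by linarith
  have hD : 1 + 3 * a * m ≤ D := by
    rw [hDd]
    nlinarith [sq_nonneg (n : ℝ)]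
  have hD1 : 1 ≤ D := by nlinarith [mul_pos ha hm0]
  have hDn : (n : ℝ) ^ 2 ≤ D := by
    rw [hDd]
    nlinarith [mul_pos ha hm0]
  have hKb0 : 0 ≤ Kb := le_trans
    (Finset.sum_nonneg fun i _ => integral_nonneg fun y => sq_nonneg _) hK
  have hcard : Fintype.card (Fin n) = Fintype.card (Ix m r) := by
    simp only [Ix, Fintype.card_sum, Fintype.card_fin, Fintype.card_fun]
    omega
  let e : Fin n ≃ Ix m r := Fintype.equivOfCardEq hcard
  have hla := lam_pos m r a ha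
  set f : Fin n → R3 → ℝ := fun l => fb b (lam m r a (e l)) (cen m r a D (e l)) with hf
  have hsup : ∀ l y, y ∈ tsupport (f l) →
      ‖y - cen m r a D (e l)‖ ≤ 1 / (4 * lam m r a (e l)) := by
    intro l y hy
    exact fb_supp b hs _ (hla _) _ y hy
  have hrep : ∀ x : Cf n, (∀ l, x l ∈ tsupport (f l)) → rep x ≤ 32 * (m : ℝ) ^ 5 / a + 1 := by
    intro x hx
    have hX : ∀ u : Ix m r, ‖x (e.symm u) - cen m r a D u‖ ≤ 1 / (4 * lam m r a u) := by
      intro u
      have := hsup (e.symm u) _ (hx _)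
      rwa [Equiv.apply_symm_apply] at this
    have h1 : rep x = (1 / 2) * ∑ u : Ix m r, ∑ v : Ix m r,
        1 / nr (x (e.symm u) - x (e.symm v)) := by
      rw [rep_eq, ← Equiv.sum_comp e.symm]
      congr 1
      apply Finset.sum_congr rfl
      intro u _
      rw [← Equiv.sum_comp e.symm]
    have h2 : ∑ u : Ix m r, ∑ v : Ix m r, 1 / nr (x (e.symm u) - x (e.symm v)) ≤
        ∑ u : Ix m r, ∑ v : Ix m r, (2 / D + Sr m r a u v) := by
      apply Finset.sum_le_sum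
      intro u _
      apply Finset.sum_le_sum
      intro v _
      by_cases huv : v = u
      · have : nr (x (e.symm u) - x (e.symm v)) = 0 := by
          rw [huv]
          unfold nr
          simp
        rw [this, div_zero]
        have := Sr_nonneg m r a ha u v
        positivity
      · exact (sep a D ha hD hm u v huv _ _ (hX u) (hX v)).2
    have h3 : ∑ u : Ix m r, ∑ v : Ix m r, (2 / D + Sr m r a u v) =
        (n : ℝ) ^ 2 * (2 / D) + ∑ u : Ix m r, ∑ v : Ix m r, Sr m r a u v := by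
      simp only [Finset.sum_add_distrib, Finset.sum_const, nsmul_eq_mul, Finset.card_univ,
        ← hcard, Fintype.card_fin]
      ring
    have h4 : (n : ℝ) ^ 2 * (2 / D) ≤ 2 := by
      rw [mul_div_assoc', div_le_iff₀ (by linarith)]
      linarith
    have h5 := Sr_sum m r a ha
    have h6 : 64 * (m : ℝ) ^ 5 / a = 2 * (32 * (m : ℝ) ^ 5 / a) := by ring
    rw [h1]
    linarith
  have hatt : ∀ x : Cf n, (∀ l, x l ∈ tsupport (f l)) → (m : ℝ) ^ 2 / (3 * a) ≤ att x := by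
    intro x hx
    have hX : ∀ u : Ix m r, ‖x (e.symm u) - cen m r a D u‖ ≤ 1 / (4 * lam m r a u) := by
      intro u
      have := hsup (e.symm u) _ (hx _)
      rwa [Equiv.apply_symm_apply] at this
    have h1 : att x = ∑ u : Ix m r, 1 / nr (x (e.symm u)) := by
      unfold att
      rw [← Equiv.sum_comp e.symm]
    rw [h1, Fintype.sum_sum_type]
    have h2 : (0 : ℝ) ≤ ∑ t : Fin r, 1 / nr (x (e.symm (Sum.inr t))) :=
      Finset.sum_nonneg fun _ _ => div_nonneg zero_le_one (nr_nonneg _)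
    have h3 : ∑ j : Fin 3 → Fin m, 1 / (3 * (a * m)) ≤
        ∑ j : Fin 3 → Fin m, 1 / nr (x (e.symm (Sum.inl j))) := by
      apply Finset.sum_le_sum
      intro j _
      apply one_div_le_one_div_of_le
      · exact lt_of_lt_of_le (lt_min (by positivity) (by norm_num))
          (cen_far a D ha hD1 (Sum.inl j) _ (hX _))
      · apply cen_near a D ha hm j
        have := hX (Sum.inl j)
        rwa [rad_inl] at this
    have h4 : ∑ j : Fin 3 → Fin m, 1 / (3 * (a * m)) = (m : ℝ) ^ 2 / (3 * a) := by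
      rw [Finset.sum_const, nsmul_eq_mul]
      simp only [Finset.card_univ, Fintype.card_fun, Fintype.card_fin]
      push_cast
      field_simp
    linarith
  have hkk : ∑ l, (lam m r a (e l)) ^ 2 * Kb ≤ (m : ℝ) ^ 3 * Kb / a ^ 2 + n * Kb := by
    rw [Equiv.sum_comp e (fun u => (lam m r a u) ^ 2 * Kb), Fintype.sum_sum_type]
    have h1 : ∑ j : Fin 3 → Fin m, (lam m r a (Sum.inl j)) ^ 2 * Kb = (m : ℝ) ^ 3 * Kb / a ^ 2 := by
      have : ∀ j : Fin 3 → Fin m, (lam m r a (Sum.inl j)) ^ 2 * Kb = (1 / a) ^ 2 * Kb :=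
        fun j => rfl
      simp_rw [this]
      rw [Finset.sum_const, nsmul_eq_mul]
      simp only [Finset.card_univ, Fintype.card_fun, Fintype.card_fin]
      push_cast
      field_simp
    have h2 : ∑ t : Fin r, (lam m r a (Sum.inr t)) ^ 2 * Kb ≤ n * Kb := by
      have : ∀ t : Fin r, (lam m r a (Sum.inr t)) ^ 2 * Kb = Kb := by
        intro t
        show (1 : ℝ) ^ 2 * Kb = Kb
        ring
      simp_rw [this]
      rw [Finset.sum_const, nsmul_eq_mul]
      simp only [Finset.card_univ, Fintype.card_fin]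
      apply mul_le_mul_of_nonneg_right _ hKb0
      have : r ≤ n := Nat.sub_le _ _
      exact_mod_cast this
    linarith
  have hfin := trial_energy f (fun l => fb_contDiff b hb _ _)
    (fun l => fb_compact b hs _ (hla _) _) (by
      intro i j y hi hj
      by_contra hne
      have hne' : e j ≠ e i := fun h => hne (e.injective h).symm
      have := (sep a D ha hD hm (e i) (e j) hne' y y (hsup i y hi) (hsup j y hj)).1
      simp at this)
    (fun l => fb_sq b hn _ (hla _) _) (fun l => (lam m r a (e l)) ^ 2 * Kb) (by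
      intro l
      rw [hf]
      dsimp only
      rw [fb_kin b hb _ (hla _) _]
      exact mul_le_mul_of_nonneg_left hK (sq_nonneg _))
    (32 * (m : ℝ) ^ 5 / a + 1) ((m : ℝ) ^ 2 / (3 * a)) (by positivity) hrep hatt
    (min (3 * a / 4) (3 / 4)) (lt_min (by positivity) (by norm_num))
    (fun l y hy => cen_far a D ha hD1 (e l) y (hsup l y hy)) n (Nat.cast_nonneg n)
  exact hfin.mono (by linarith)

/-- trial functions of energy `- c n^(7/3)` -/
theorem en_tr : ∃ c N₀ : ℝ, 0 < c ∧ ∀ n : ℕ, N₀ ≤ n → Tr n n (-(c * (n : ℝ) ^ (7 / 3 : ℝ))) := by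
  obtain ⟨b, hb, _, hs, hn⟩ := bump_exists
  set K : ℝ := (∑ i, ∫ y, pd i b y ^ 2) + 1 with hKd
  have hK1 : 1 ≤ K := by
    have : 0 ≤ ∑ i, ∫ y, pd i b y ^ 2 :=
      Finset.sum_nonneg fun i _ => integral_nonneg fun y => sq_nonneg _
    linarith
  have hK0 : 0 < K := by linarith
  refine ⟨1 / (2304 * K), max 384 (2304 * K * (K + 1)), by positivity, ?_⟩
  intro n hN
  have hn1 : (384 : ℝ) ≤ n := (le_max_left _ _).trans hN
  have hn2 : 2304 * K * (K + 1) ≤ n := (le_max_right _ _).trans hN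
  have hn0 : (0 : ℝ) < n := by linarith
  set ρ : ℝ := ((n : ℝ) / 384) ^ (1 / 3 : ℝ) with hρ
  have hρ3 : ρ ^ 3 = (n : ℝ) / 384 := by
    rw [hρ, ← Real.rpow_natCast, ← Real.rpow_mul (by positivity)]
    norm_num
  have hρ1 : 1 ≤ ρ := by
    rw [hρ]
    apply Real.one_le_rpow
    · rw [le_div_iff₀ (by norm_num)]
      linarith
    · norm_num
  set m : ℕ := ⌊ρ⌋₊ with hmd
  have hm1 : 1 ≤ m := Nat.le_floor (by exact_mod_cast hρ1)
  have hmr : (m : ℝ) ≤ ρ := Nat.floor_le (by linarith)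
  have hm' : (1 : ℝ) ≤ m := by exact_mod_cast hm1
  have hm2 : ρ < m + 1 := Nat.lt_floor_add_one ρ
  have hm3 : (m : ℝ) ^ 3 ≤ (n : ℝ) / 384 := by
    rw [← hρ3]
    exact pow_le_pow_left₀ (by linarith) hmr 3
  have hmn : m ^ 3 ≤ n := by
    have : (m : ℝ) ^ 3 ≤ n := hm3.trans (div_le_self hn0.le (by norm_num))
    exact_mod_cast this
  have hm0 : (0 : ℝ) < m := by linarith
  -- a lower bound for m
  have hmlow : (n : ℝ) ^ (1 / 3 : ℝ) ≤ 16 * m := by
    have h1 : (n : ℝ) ^ (1 / 3 : ℝ) ≤ 8 * ρ := by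
      have h2 : ((n : ℝ) ^ (1 / 3 : ℝ)) ^ 3 = n := by
        rw [← Real.rpow_natCast, ← Real.rpow_mul (by positivity)]
        norm_num
      have h3 : ((n : ℝ) ^ (1 / 3 : ℝ)) ^ 3 ≤ (8 * ρ) ^ 3 := by
        rw [h2, mul_pow, hρ3]
        linarith
      exact le_of_pow_le_pow_left₀ (by norm_num) (by positivity) h3
    linarith
  set a : ℝ := 12 * K * m / n with had
  have ha : 0 < a := by positivity
  have h := en_bound b hb hs hn K (by linarith) m n hm1 hmn a ha
  have t1 : (m : ℝ) ^ 3 * K / a ^ 2 = m * (n : ℝ) ^ 2 / (144 * K) := by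
    rw [had]
    field_simp
    norm_num
  have t2 : 32 * (m : ℝ) ^ 5 / a ≤ m * (n : ℝ) ^ 2 / (144 * K) := by
    have e : 32 * (m : ℝ) ^ 5 / a = (384 * (m : ℝ) ^ 3) * (m * n / (144 * K)) := by
      rw [had]
      field_simp
      norm_num
    rw [e]
    have h5 : 384 * (m : ℝ) ^ 3 ≤ n := by linarith
    calc (384 * (m : ℝ) ^ 3) * (m * n / (144 * K)) ≤ n * (m * n / (144 * K)) :=
          mul_le_mul_of_nonneg_right h5 (by positivity)
      _ = m * (n : ℝ) ^ 2 / (144 * K) := by ring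
  have t3 : n * ((m : ℝ) ^ 2 / (3 * a)) = 4 * (m * (n : ℝ) ^ 2 / (144 * K)) := by
    rw [had]
    field_simp
    norm_num
  rw [t1, t3] at h
  have h7 : (n : ℝ) ^ (7 / 3 : ℝ) = (n : ℝ) ^ 2 * (n : ℝ) ^ (1 / 3 : ℝ) := by
    rw [← Real.rpow_natCast, ← Real.rpow_add hn0]
    norm_num
  have hone : 1 ≤ (n : ℝ) ^ (1 / 3 : ℝ) := Real.one_le_rpow (by linarith) (by norm_num)
  have u1 : (n : ℝ) ^ (7 / 3 : ℝ) / (1152 * K) ≤ 2 * (m * (n : ℝ) ^ 2 / (144 * K)) := by
    rw [h7]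
    have : 2 * (m * (n : ℝ) ^ 2 / (144 * K)) = (n : ℝ) ^ 2 * (16 * m) / (1152 * K) := by
      field_simp
      norm_num
    rw [this]
    apply div_le_div_of_nonneg_right _ (by positivity)
    exact mul_le_mul_of_nonneg_left hmlow (by positivity)
  have u2 : (n : ℝ) * K + 1 ≤ (n : ℝ) ^ (7 / 3 : ℝ) / (2304 * K) := by
    rw [le_div_iff₀ (by positivity), h7]
    have v1 : (n : ℝ) * K + 1 ≤ n * (K + 1) := by nlinarith
    calc ((n : ℝ) * K + 1) * (2304 * K) ≤ (n * (K + 1)) * (2304 * K) :=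
          mul_le_mul_of_nonneg_right v1 (by positivity)
      _ = n * (2304 * K * (K + 1)) := by ring
      _ ≤ n * n := mul_le_mul_of_nonneg_left hn2 hn0.le
      _ = (n : ℝ) ^ 2 * 1 := by ring
      _ ≤ (n : ℝ) ^ 2 * (n : ℝ) ^ (1 / 3 : ℝ) := mul_le_mul_of_nonneg_left hone (by positivity)
  have u3 : (n : ℝ) ^ (7 / 3 : ℝ) / (1152 * K) = 2 * ((n : ℝ) ^ (7 / 3 : ℝ) / (2304 * K)) := by
    field_simp
    norm_num
  have u4 : 1 / (2304 * K) * (n : ℝ) ^ (7 / 3 : ℝ) = (n : ℝ) ^ (7 / 3 : ℝ) / (2304 * K) := by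
    ring
  rw [u4]
  exact h.mono (by linarith)

theorem Tr.low {n : ℕ} {Z B E : ℝ} (h : Tr n Z B) (hlow : Low n Z E) : E ≤ B := by
  obtain ⟨ψ, h1, h2, h3, h4⟩ := h
  exact le_of_mul_le_mul_right ((hlow ψ h1 h2).trans h4) h3

/-- the ground state energy of the neutral atom is at most `- c n^(7/3)` -/
theorem en_low : ∃ c N₀ : ℝ, 0 < c ∧ ∀ (n : ℕ) (E : ℝ), N₀ ≤ n → Low n n E →
    E ≤ -(c * (n : ℝ) ^ (7 / 3 : ℝ)) := by
  obtain ⟨c, N₀, hc, h⟩ := en_tr
  exact ⟨c, N₀, hc, fun n E hn hlow => (h n hn).low hlow⟩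

end Pool.Agent.Helper3.PW
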