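import Pool.Agent.Helper3.PW.EnLow

/-!
# Trial functions for `n` electrons and any charge `Z <= n`
-/

set_option autoImplicit false

namespace Pool.Agent.Helper3.PW.Z2

open MeasureTheory Pool.Agent.Helper95.PW Pool.Agent.Helper3.PW

/-- inverse size -/
noncomputable def lam (m r : ℕ) (a L : ℝ) : Ix m r → ℝ :=
  Sum.elim (fun _ => 1 / a) (fun _ => 1 / L)

theorem dist_out {m : ℕ} (r : ℕ) (a D L : ℝ) (ha : 0 < a) (hL : 1 ≤ L)
    (hD : 1 + 3 * a * m + L ≤ D) (hm : 1 ≤ m)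
    (j : Fin 3 → Fin m) (t : Fin r) (x y : R3)
    (hx : ‖x - cen m r a D (Sum.inl j)‖ ≤ a / 4) (hy : ‖y - cen m r a D (Sum.inr t)‖ ≤ L / 4) :
    D / 2 ≤ ‖x - y‖ := by
  have h1 := (norm_le_pi_norm (x - cen m r a D (Sum.inl j)) 0).trans hx
  have h2 := (norm_le_pi_norm (y - cen m r a D (Sum.inr t)) 0).trans hy
  have h3 := norm_le_pi_norm (x - y) 0
  rw [Real.norm_eq_abs] at h1 h2 h3
  have c1 : cen m r a D (Sum.inl j) 0 = a * (((j 0 : ℕ) : ℝ) + 1) := rfl
  have c2 : cen m r a D (Sum.inr t) 0 = D * (((t : ℕ) : ℝ) + 1) := by simp [cen]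
  rw [Pi.sub_apply, c1] at h1
  rw [Pi.sub_apply, c2] at h2
  rw [Pi.sub_apply] at h3
  rw [abs_le] at h1 h2
  have h4 := neg_abs_le (x 0 - y 0)
  have hm' : (1 : ℝ) ≤ m := by exact_mod_cast hm
  have hj : ((j 0 : ℕ) : ℝ) + 1 ≤ m := by exact_mod_cast (j 0).2
  have ht : (0 : ℝ) ≤ ((t : ℕ) : ℝ) := Nat.cast_nonneg _
  have ham : a ≤ a * m := by nlinarith
  have k1 : a * (((j 0 : ℕ) : ℝ) + 1) ≤ a * m := mul_le_mul_of_nonneg_left hj ha.le
  have k2 : D ≤ D * (((t : ℕ) : ℝ) + 1) := by nlinarith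
  nlinarith

theorem dist_outout {m : ℕ} (r : ℕ) (a D L : ℝ) (hL : 1 ≤ L) (hD : L ≤ D) (t u : Fin r) (h : u ≠ t)
    (x y : R3)
    (hx : ‖x - cen m r a D (Sum.inr t)‖ ≤ L / 4) (hy : ‖y - cen m r a D (Sum.inr u)‖ ≤ L / 4) :
    D / 2 ≤ ‖x - y‖ := by
  have h1 := (norm_le_pi_norm (x - cen m r a D (Sum.inr t)) 0).trans hx
  have h2 := (norm_le_pi_norm (y - cen m r a D (Sum.inr u)) 0).trans hy
  have h3 := norm_le_pi_norm (x - y) 0
  rw [Real.norm_eq_abs] at h1 h2 h3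
  have c1 : cen m r a D (Sum.inr t) 0 = D * (((t : ℕ) : ℝ) + 1) := by simp [cen]
  have c2 : cen m r a D (Sum.inr u) 0 = D * (((u : ℕ) : ℝ) + 1) := by simp [cen]
  rw [Pi.sub_apply, c1] at h1
  rw [Pi.sub_apply, c2] at h2
  rw [Pi.sub_apply] at h3
  have h4 : (1 : ℝ) ≤ |((t : ℕ) : ℝ) - ((u : ℕ) : ℝ)| := by
    apply nat_dist
    intro e
    exact h (Fin.ext e.symm)
  have h5 : D ≤ |D * (((t : ℕ) : ℝ) + 1) - D * (((u : ℕ) : ℝ) + 1)| := by
    have e : D * (((t : ℕ) : ℝ) + 1) - D * (((u : ℕ) : ℝ) + 1) =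
        D * (((t : ℕ) : ℝ) - ((u : ℕ) : ℝ)) := by ring
    rw [e, abs_mul, abs_of_pos (by linarith)]
    nlinarith
  have h6 : |D * (((t : ℕ) : ℝ) + 1) - D * (((u : ℕ) : ℝ) + 1)| ≤ |x 0 - y 0| +
      |x 0 - D * (((t : ℕ) : ℝ) + 1)| + |y 0 - D * (((u : ℕ) : ℝ) + 1)| := by
    have e : D * (((t : ℕ) : ℝ) + 1) - D * (((u : ℕ) : ℝ) + 1) = (x 0 - y 0) -
      (x 0 - D * (((t : ℕ) : ℝ) + 1)) + (y 0 - D * (((u : ℕ) : ℝ) + 1)) := by ring
    rw [e]
    exact (abs_add_le _ _).trans (add_le_add (abs_sub _ _) le_rfl)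
  linarith

theorem lam_pos (m r : ℕ) (a L : ℝ) (ha : 0 < a) (hL : 1 ≤ L) (u : Ix m r) :
    0 < lam m r a L u := by
  rcases u with j | t
  · show 0 < 1 / a
    positivity
  · show 0 < 1 / L
    have : 0 < L := by linarith
    positivity

theorem rad_inl (m r : ℕ) (a L : ℝ) (j : Fin 3 → Fin m) :
    1 / (4 * lam m r a L (Sum.inl j)) = a / 4 := by
  show 1 / (4 * (1 / a)) = a / 4
  rw [mul_one_div, one_div_div]

theorem rad_inr (m r : ℕ) (a L : ℝ) (t : Fin r) :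
    1 / (4 * lam m r a L (Sum.inr t)) = L / 4 := by
  show 1 / (4 * (1 / L)) = L / 4
  rw [mul_one_div, one_div_div]

theorem sep {m r : ℕ} (a D L : ℝ) (ha : 0 < a) (hL : 1 ≤ L) (hD : 1 + 3 * a * m + L ≤ D)
    (hm : 1 ≤ m) (u v : Ix m r)
    (huv : v ≠ u) (x y : R3) (hx : ‖x - cen m r a D u‖ ≤ 1 / (4 * lam m r a L u))
    (hy : ‖y - cen m r a D v‖ ≤ 1 / (4 * lam m r a L v)) :
    0 < ‖x - y‖ ∧ 1 / nr (x - y) ≤ 2 / D + Sr m r a u v := by
  have hm' : (1 : ℝ) ≤ m := by exact_mod_cast hm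
  have hDL : L ≤ D := by nlinarith [mul_pos ha (lt_of_lt_of_le one_pos hm')]
  have hD1 : 1 ≤ D := by linarith
  have out : D / 2 ≤ ‖x - y‖ → 0 < ‖x - y‖ ∧ 1 / nr (x - y) ≤ 2 / D + Sr m r a u v := by
    intro h
    have h0 : 0 < ‖x - y‖ := by linarith
    refine ⟨h0, ?_⟩
    have h1 : 1 / nr (x - y) ≤ 2 / D := by
      have h2 : D / 2 ≤ nr (x - y) := h.trans (norm_le_nr _)
      calc 1 / nr (x - y) ≤ 1 / (D / 2) := one_div_le_one_div_of_le (by linarith) h2
        _ = 2 / D := by rw [one_div_div]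
    have := Sr_nonneg m r a ha u v
    linarith
  rcases u with j | t <;> rcases v with k | t'
  · rw [rad_inl] at hx hy
    have hkj : k ≠ j := fun e => huv (by rw [e])
    have h := dist_in r a D ha j k hkj x y hx hy
    have h1 := Dm_one j k hkj
    have hpos : 0 < a / 2 * Dm j k := by positivity
    refine ⟨lt_of_lt_of_le hpos h, ?_⟩
    have h2 : 1 / nr (x - y) ≤ 2 / a * (1 / Dm j k) := by
      calc 1 / nr (x - y) ≤ 1 / (a / 2 * Dm j k) :=
            one_div_le_one_div_of_le hpos (h.trans (norm_le_nr _))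
        _ = 2 / a * (1 / Dm j k) := by
            field_simp
    have h3 : Sr m r a (Sum.inl j) (Sum.inl k) = 2 / a * (1 / Dm j k) := by
      show (if k = j then (0:ℝ) else 2 / a * (1 / Dm j k)) = _
      rw [if_neg hkj]
    rw [h3]
    have : 0 ≤ 2 / D := by positivity
    linarith
  · rw [rad_inl] at hx
    rw [rad_inr] at hy
    exact out (dist_out r a D L ha hL hD hm j t' x y hx hy)
  · rw [rad_inr] at hx
    rw [rad_inl] at hy
    apply out
    rw [norm_sub_rev]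
    exact dist_out r a D L ha hL hD hm k t y x hy hx
  · rw [rad_inr] at hx hy
    exact out (dist_outout r a D L hL hDL t t' (fun e => huv (by rw [e])) x y hx hy)

theorem cen_far {m r : ℕ} (a D L : ℝ) (ha : 0 < a) (hL : 1 ≤ L) (hD : L ≤ D) (u : Ix m r) (y : R3)
    (hy : ‖y - cen m r a D u‖ ≤ 1 / (4 * lam m r a L u)) : min (3 * a / 4) (3 / 4) ≤ nr y := by
  refine le_trans ?_ (norm_le_nr y)
  refine le_trans ?_ (norm_le_pi_norm y 0)
  rw [Real.norm_eq_abs]
  refine le_trans ?_ (le_abs_self _)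
  rcases u with j | t
  · rw [rad_inl] at hy
    have h1 := (norm_le_pi_norm (y - cen m r a D (Sum.inl j)) 0).trans hy
    have c1 : cen m r a D (Sum.inl j) 0 = a * (((j 0 : ℕ) : ℝ) + 1) := rfl
    rw [Real.norm_eq_abs, Pi.sub_apply, c1, abs_le] at h1
    refine (min_le_left _ _).trans ?_
    have : (0 : ℝ) ≤ ((j 0 : ℕ) : ℝ) := Nat.cast_nonneg _
    nlinarith [h1.1]
  · rw [rad_inr] at hy
    have h1 := (norm_le_pi_norm (y - cen m r a D (Sum.inr t)) 0).trans hy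
    have c2 : cen m r a D (Sum.inr t) 0 = D * (((t : ℕ) : ℝ) + 1) := by simp [cen]
    rw [Real.norm_eq_abs, Pi.sub_apply, c2, abs_le] at h1
    refine (min_le_right _ _).trans ?_
    have : (0 : ℝ) ≤ ((t : ℕ) : ℝ) := Nat.cast_nonneg _
    nlinarith [h1.1]

theorem en_bound (b : R3 → ℝ) (hb : ContDiff ℝ (⊤ : ℕ∞) b)
    (hs : tsupport b ⊆ Metric.closedBall 0 (1 / 4)) (hn : ∫ y, b y ^ 2 = 1) (Kb : ℝ)
    (hK : ∑ i, ∫ y, pd i b y ^ 2 ≤ Kb) (m n : ℕ) (hm : 1 ≤ m) (hmn : m ^ 3 ≤ n) (a : ℝ)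
    (ha : 0 < a) (L : ℝ) (hL : 1 ≤ L) (Z : ℝ) (hZ : 0 ≤ Z) : Tr n Z
    ((m : ℝ) ^ 3 * Kb / a ^ 2 + n * (Kb / L ^ 2) + 32 * (m : ℝ) ^ 5 / a + 1 -
      Z * ((m : ℝ) ^ 2 / (3 * a))) := by
  classical
  set r : ℕ := n - m ^ 3 with hr
  set D : ℝ := (n : ℝ) ^ 2 + (1 + 3 * a * m + L) with hDd
  have hm' : (1 : ℝ) ≤ m := by exact_mod_cast hm
  have hm0 : (0 : ℝ) < m := by linarith
  have hD : 1 + 3 * a * m + L ≤ D := by
    rw [hDd]
    nlinarith [sq_nonneg (n : ℝ)]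
  have hDL : L ≤ D := by nlinarith [mul_pos ha hm0]
  have hD1 : 1 ≤ D := by linarith
  have hDn : (n : ℝ) ^ 2 ≤ D := by
    rw [hDd]
    nlinarith [mul_pos ha hm0]
  have hKb0 : 0 ≤ Kb := le_trans
    (Finset.sum_nonneg fun i _ => integral_nonneg fun y => sq_nonneg _) hK
  have hcard : Fintype.card (Fin n) = Fintype.card (Ix m r) := by
    simp only [Ix, Fintype.card_sum, Fintype.card_fin, Fintype.card_fun]
    omega
  let e : Fin n ≃ Ix m r := Fintype.equivOfCardEq hcard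
  have hla := lam_pos m r a L ha hL
  set f : Fin n → R3 → ℝ := fun l => fb b (lam m r a L (e l)) (cen m r a D (e l)) with hf
  have hsup : ∀ l y, y ∈ tsupport (f l) →
      ‖y - cen m r a D (e l)‖ ≤ 1 / (4 * lam m r a L (e l)) := by
    intro l y hy
    exact fb_supp b hs _ (hla _) _ y hy
  have hrep : ∀ x : Cf n, (∀ l, x l ∈ tsupport (f l)) → rep x ≤ 32 * (m : ℝ) ^ 5 / a + 1 := by
    intro x hx
    have hX : ∀ u : Ix m r, ‖x (e.symm u) - cen m r a D u‖ ≤ 1 / (4 * lam m r a L u) := by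
      intro u
      have := hsup (e.symm u) _ (hx _)
      rwa [Equiv.apply_symm_apply] at this
    have h1 : rep x = (1 / 2) * ∑ u : Ix m r, ∑ v : Ix m r,
        1 / nr (x (e.symm u) - x (e.symm v)) := by
      rw [rep_eq, ← Equiv.sum_comp e.symm]
      congr 1
      apply Finset.sum_congr rfl
      intro u _
      rw [← Equiv.sum_comp e.symm]
    have h2 : ∑ u : Ix m r, ∑ v : Ix m r, 1 / nr (x (e.symm u) - x (e.symm v)) ≤
        ∑ u : Ix m r, ∑ v : Ix m r, (2 / D + Sr m r a u v) := by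
      apply Finset.sum_le_sum
      intro u _
      apply Finset.sum_le_sum
      intro v _
      by_cases huv : v = u
      · have : nr (x (e.symm u) - x (e.symm v)) = 0 := by
          rw [huv]
          unfold nr
          simp
        rw [this, div_zero]
        have := Sr_nonneg m r a ha u v
        positivity
      · exact (sep a D L ha hL hD hm u v huv _ _ (hX u) (hX v)).2
    have h3 : ∑ u : Ix m r, ∑ v : Ix m r, (2 / D + Sr m r a u v) =
        (n : ℝ) ^ 2 * (2 / D) + ∑ u : Ix m r, ∑ v : Ix m r, Sr m r a u v := by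
      simp only [Finset.sum_add_distrib, Finset.sum_const, nsmul_eq_mul, Finset.card_univ,
        ← hcard, Fintype.card_fin]
      ring
    have h4 : (n : ℝ) ^ 2 * (2 / D) ≤ 2 := by
      rw [mul_div_assoc', div_le_iff₀ (by linarith)]
      linarith
    have h5 := Sr_sum m r a ha
    have h6 : 64 * (m : ℝ) ^ 5 / a = 2 * (32 * (m : ℝ) ^ 5 / a) := by ring
    rw [h1]
    linarith
  have hatt : ∀ x : Cf n, (∀ l, x l ∈ tsupport (f l)) → (m : ℝ) ^ 2 / (3 * a) ≤ att x := by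
    intro x hx
    have hX : ∀ u : Ix m r, ‖x (e.symm u) - cen m r a D u‖ ≤ 1 / (4 * lam m r a L u) := by
      intro u
      have := hsup (e.symm u) _ (hx _)
      rwa [Equiv.apply_symm_apply] at this
    have h1 : att x = ∑ u : Ix m r, 1 / nr (x (e.symm u)) := by
      unfold att
      rw [← Equiv.sum_comp e.symm]
    rw [h1, Fintype.sum_sum_type]
    have h2 : (0 : ℝ) ≤ ∑ t : Fin r, 1 / nr (x (e.symm (Sum.inr t))) :=
      Finset.sum_nonneg fun _ _ => div_nonneg zero_le_one (nr_nonneg _)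
    have h3 : ∑ j : Fin 3 → Fin m, 1 / (3 * (a * m)) ≤
        ∑ j : Fin 3 → Fin m, 1 / nr (x (e.symm (Sum.inl j))) := by
      apply Finset.sum_le_sum
      intro j _
      apply one_div_le_one_div_of_le
      · exact lt_of_lt_of_le (lt_min (by positivity) (by norm_num))
          (cen_far a D L ha hL hDL (Sum.inl j) _ (hX _))
      · apply cen_near a D ha hm j
        have := hX (Sum.inl j)
        rwa [rad_inl] at this
    have h4 : ∑ j : Fin 3 → Fin m, 1 / (3 * (a * m)) = (m : ℝ) ^ 2 / (3 * a) := by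
      rw [Finset.sum_const, nsmul_eq_mul]
      simp only [Finset.card_univ, Fintype.card_fun, Fintype.card_fin]
      push_cast
      field_simp
    linarith
  have hkk : ∑ l, (lam m r a L (e l)) ^ 2 * Kb ≤ (m : ℝ) ^ 3 * Kb / a ^ 2 + n * (Kb / L ^ 2) := by
    rw [Equiv.sum_comp e (fun u => (lam m r a L u) ^ 2 * Kb), Fintype.sum_sum_type]
    have h1 : ∑ j : Fin 3 → Fin m, (lam m r a L (Sum.inl j)) ^ 2 * Kb = (m : ℝ) ^ 3 * Kb / a ^ 2 := by
      have : ∀ j : Fin 3 → Fin m, (lam m r a L (Sum.inl j)) ^ 2 * Kb = (1 / a) ^ 2 * Kb :=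
        fun j => rfl
      simp_rw [this]
      rw [Finset.sum_const, nsmul_eq_mul]
      simp only [Finset.card_univ, Fintype.card_fun, Fintype.card_fin]
      push_cast
      field_simp
    have h2 : ∑ t : Fin r, (lam m r a L (Sum.inr t)) ^ 2 * Kb ≤ n * (Kb / L ^ 2) := by
      have : ∀ t : Fin r, (lam m r a L (Sum.inr t)) ^ 2 * Kb = Kb / L ^ 2 := by
        intro t
        show (1 / L) ^ 2 * Kb = Kb / L ^ 2
        rw [div_pow, one_pow]
        ring
      simp_rw [this]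
      rw [Finset.sum_const, nsmul_eq_mul]
      simp only [Finset.card_univ, Fintype.card_fin]
      apply mul_le_mul_of_nonneg_right _ (div_nonneg hKb0 (sq_nonneg L))
      have : r ≤ n := Nat.sub_le _ _
      exact_mod_cast this
    linarith
  have hfin := trial_energy f (fun l => fb_contDiff b hb _ _)
    (fun l => fb_compact b hs _ (hla _) _) (by
      intro i j y hi hj
      by_contra hne
      have hne' : e j ≠ e i := fun h => hne (e.injective h).symm
      have := (sep a D L ha hL hD hm (e i) (e j) hne' y y (hsup i y hi) (hsup j y hj)).1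
      simp at this)
    (fun l => fb_sq b hn _ (hla _) _) (fun l => (lam m r a L (e l)) ^ 2 * Kb) (by
      intro l
      rw [hf]
      dsimp only
      rw [fb_kin b hb _ (hla _) _]
      exact mul_le_mul_of_nonneg_left hK (sq_nonneg _))
    (32 * (m : ℝ) ^ 5 / a + 1) ((m : ℝ) ^ 2 / (3 * a)) (by positivity) hrep hatt
    (min (3 * a / 4) (3 / 4)) (lt_min (by positivity) (by norm_num))
    (fun l y hy => cen_far a D L ha hL hDL (e l) y (hsup l y hy)) Z hZ
  exact hfin.mono (by linarith)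

/-- trial functions of energy `- c Z^(7/3)`, for `Z` at most the number of electrons -/
theorem en_trZ : ∃ c N₀ : ℝ, 0 < c ∧ ∀ (n : ℕ) (Z : ℝ), N₀ ≤ Z → Z ≤ n →
    Tr n Z (-(c * Z ^ (7 / 3 : ℝ))) := by
  obtain ⟨b, hb, _, hs, hn⟩ := bump_exists
  set K : ℝ := (∑ i, ∫ y, pd i b y ^ 2) + 1 with hKd
  have hK1 : 1 ≤ K := by
    have : 0 ≤ ∑ i, ∫ y, pd i b y ^ 2 :=
      Finset.sum_nonneg fun i _ => integral_nonneg fun y => sq_nonneg _
    linarith
  have hK0 : 0 < K := by linarith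
  refine ⟨1 / (2304 * K), max 384 (2304 * K * (K + 1)), by positivity, ?_⟩
  intro n Z hN hZn
  have hn1 : (384 : ℝ) ≤ Z := (le_max_left _ _).trans hN
  have hn2 : 2304 * K * (K + 1) ≤ Z := (le_max_right _ _).trans hN
  have hn0 : (0 : ℝ) < Z := by linarith
  have hnn : (0 : ℝ) < n := by linarith
  set ρ : ℝ := (Z / 384) ^ (1 / 3 : ℝ) with hρ
  have hρ3 : ρ ^ 3 = Z / 384 := by
    rw [hρ, ← Real.rpow_natCast, ← Real.rpow_mul (by positivity)]
    norm_num
  have hρ1 : 1 ≤ ρ := by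
    rw [hρ]
    apply Real.one_le_rpow
    · rw [le_div_iff₀ (by norm_num)]
      linarith
    · norm_num
  set m : ℕ := ⌊ρ⌋₊ with hmd
  have hm1 : 1 ≤ m := Nat.le_floor (by exact_mod_cast hρ1)
  have hmr : (m : ℝ) ≤ ρ := Nat.floor_le (by linarith)
  have hm' : (1 : ℝ) ≤ m := by exact_mod_cast hm1
  have hm2 : ρ < m + 1 := Nat.lt_floor_add_one ρ
  have hm3 : (m : ℝ) ^ 3 ≤ Z / 384 := by
    rw [← hρ3]
    exact pow_le_pow_left₀ (by linarith) hmr 3
  have hmn : m ^ 3 ≤ n := by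
    have : (m : ℝ) ^ 3 ≤ n := (hm3.trans (div_le_self hn0.le (by norm_num))).trans hZn
    exact_mod_cast this
  have hm0 : (0 : ℝ) < m := by linarith
  have hmlow : Z ^ (1 / 3 : ℝ) ≤ 16 * m := by
    have h1 : Z ^ (1 / 3 : ℝ) ≤ 8 * ρ := by
      have h2 : (Z ^ (1 / 3 : ℝ)) ^ 3 = Z := by
        rw [← Real.rpow_natCast, ← Real.rpow_mul (by positivity)]
        norm_num
      have h3 : (Z ^ (1 / 3 : ℝ)) ^ 3 ≤ (8 * ρ) ^ 3 := by
        rw [h2, mul_pow, hρ3]
        linarith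
      exact le_of_pow_le_pow_left₀ (by norm_num) (by positivity) h3
    linarith
  set a : ℝ := 12 * K * m / Z with had
  have ha : 0 < a := by positivity
  have hL : 1 ≤ (n : ℝ) := by linarith
  have h := en_bound b hb hs hn K (by linarith) m n hm1 hmn a ha n hL Z hn0.le
  have t0 : (n : ℝ) * (K / (n : ℝ) ^ 2) ≤ K := by
    have e : (n : ℝ) * (K / (n : ℝ) ^ 2) = K / n := by
      field_simp
    rw [e]
    exact div_le_self hK0.le hL
  have t1 : (m : ℝ) ^ 3 * K / a ^ 2 = m * Z ^ 2 / (144 * K) := by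
    rw [had]
    field_simp
    norm_num
  have t2 : 32 * (m : ℝ) ^ 5 / a ≤ m * Z ^ 2 / (144 * K) := by
    have e : 32 * (m : ℝ) ^ 5 / a = (384 * (m : ℝ) ^ 3) * (m * Z / (144 * K)) := by
      rw [had]
      field_simp
      norm_num
    rw [e]
    have h5 : 384 * (m : ℝ) ^ 3 ≤ Z := by linarith
    calc (384 * (m : ℝ) ^ 3) * (m * Z / (144 * K)) ≤ Z * (m * Z / (144 * K)) :=
          mul_le_mul_of_nonneg_right h5 (by positivity)
      _ = m * Z ^ 2 / (144 * K) := by ring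
  have t3 : Z * ((m : ℝ) ^ 2 / (3 * a)) = 4 * (m * Z ^ 2 / (144 * K)) := by
    rw [had]
    field_simp
    norm_num
  rw [t1, t3] at h
  have h7 : Z ^ (7 / 3 : ℝ) = Z ^ 2 * Z ^ (1 / 3 : ℝ) := by
    rw [← Real.rpow_natCast, ← Real.rpow_add hn0]
    norm_num
  have hone : 1 ≤ Z ^ (1 / 3 : ℝ) := Real.one_le_rpow (by linarith) (by norm_num)
  have u1 : Z ^ (7 / 3 : ℝ) / (1152 * K) ≤ 2 * (m * Z ^ 2 / (144 * K)) := by
    rw [h7]
    have : 2 * (m * Z ^ 2 / (144 * K)) = Z ^ 2 * (16 * m) / (1152 * K) := by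
      field_simp
      norm_num
    rw [this]
    apply div_le_div_of_nonneg_right _ (by positivity)
    exact mul_le_mul_of_nonneg_left hmlow (by positivity)
  have u2 : K + 1 ≤ Z ^ (7 / 3 : ℝ) / (2304 * K) := by
    rw [le_div_iff₀ (by positivity), h7]
    calc (K + 1) * (2304 * K) = 2304 * K * (K + 1) := by ring
      _ ≤ Z := hn2
      _ ≤ Z ^ 2 * 1 := by nlinarith
      _ ≤ Z ^ 2 * Z ^ (1 / 3 : ℝ) := mul_le_mul_of_nonneg_left hone (by positivity)
  have u3 : Z ^ (7 / 3 : ℝ) / (1152 * K) = 2 * (Z ^ (7 / 3 : ℝ) / (2304 * K)) := by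
    field_simp
    norm_num
  have u4 : 1 / (2304 * K) * Z ^ (7 / 3 : ℝ) = Z ^ (7 / 3 : ℝ) / (2304 * K) := by
    ring
  rw [u4]
  exact h.mono (by linarith)

end Pool.Agent.Helper3.PW.Z2
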