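import Mathlib

/-!
# A lattice sum
-/

set_option autoImplicit false

namespace Pool.Agent.Helper3.PW

open Finset

theorem sqrt_sum (m : ℕ) : ∑ j ∈ range m, 1 / Real.sqrt ((j : ℝ) + 1) ≤ 2 * Real.sqrt m := by
  induction m with
  | zero => simp
  | succ m ih =>
    rw [sum_range_succ]
    have h0 : (0 : ℝ) ≤ m := Nat.cast_nonneg m
    have h1 : 0 < Real.sqrt ((m : ℝ) + 1) := Real.sqrt_pos.2 (by linarith)
    have h2 : 1 / Real.sqrt ((m : ℝ) + 1) ≤ 2 * (Real.sqrt ((m : ℝ) + 1) - Real.sqrt m) := by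
      rw [div_le_iff₀ h1]
      have e1 : Real.sqrt ((m : ℝ) + 1) * Real.sqrt ((m : ℝ) + 1) = (m : ℝ) + 1 :=
        Real.mul_self_sqrt (by linarith)
      have e2 : Real.sqrt (m : ℝ) * Real.sqrt m = m := Real.mul_self_sqrt h0
      nlinarith [sq_nonneg (Real.sqrt ((m : ℝ) + 1) - Real.sqrt m)]
    push_cast
    linarith

/-- one coordinate -/
theorem one_sum (m i : ℕ) (hi : i < m) :
    ∑ k : Fin m, 1 / Real.sqrt (|(i : ℝ) - ((k : ℕ) : ℝ)| + 1) ≤ 4 * Real.sqrt m := by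
  rw [Fin.sum_univ_eq_sum_range (fun k : ℕ => 1 / Real.sqrt (|(i : ℝ) - (k : ℝ)| + 1)) m]
  have hsplit : ∑ k ∈ range m, 1 / Real.sqrt (|(i : ℝ) - (k : ℝ)| + 1) ≤
      ∑ k ∈ range m, 1 / Real.sqrt ((k : ℝ) + 1) + ∑ k ∈ range m, 1 / Real.sqrt ((k : ℝ) + 1) := by
    have h1 : ∑ k ∈ range m, 1 / Real.sqrt (|(i : ℝ) - (k : ℝ)| + 1) =
        ∑ k ∈ range (i + 1), 1 / Real.sqrt (|(i : ℝ) - (k : ℝ)| + 1) +
          ∑ k ∈ Ico (i + 1) m, 1 / Real.sqrt (|(i : ℝ) - (k : ℝ)| + 1) := by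
      rw [← sum_range_add_sum_Ico _ (show i + 1 ≤ m by omega)]
    rw [h1]
    apply add_le_add
    · rw [← sum_range_reflect]
      calc ∑ j ∈ range (i + 1), 1 / Real.sqrt (|(i : ℝ) - ((i + 1 - 1 - j : ℕ) : ℝ)| + 1)
          = ∑ j ∈ range (i + 1), 1 / Real.sqrt ((j : ℝ) + 1) := by
            apply sum_congr rfl
            intro j hj
            rw [mem_range] at hj
            have : ((i + 1 - 1 - j : ℕ) : ℝ) = (i : ℝ) - j := by
              rw [show i + 1 - 1 - j = i - j by omega, Nat.cast_sub (by omega)]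
            rw [this]
            have e : (i : ℝ) - ((i : ℝ) - j) = j := by ring
            rw [e, abs_of_nonneg (Nat.cast_nonneg _)]
        _ ≤ ∑ k ∈ range m, 1 / Real.sqrt ((k : ℝ) + 1) := by
            apply sum_le_sum_of_subset_of_nonneg
            · intro j hj
              rw [mem_range] at hj ⊢
              omega
            · intro j _ _
              positivity
    · rw [sum_Ico_eq_sum_range]
      calc ∑ j ∈ range (m - (i + 1)), 1 / Real.sqrt (|(i : ℝ) - ((i + 1 + j : ℕ) : ℝ)| + 1)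
          ≤ ∑ j ∈ range (m - (i + 1)), 1 / Real.sqrt ((j : ℝ) + 1) := by
            apply sum_le_sum
            intro j _
            have e : |(i : ℝ) - ((i + 1 + j : ℕ) : ℝ)| = (j : ℝ) + 1 := by
              push_cast
              have hj : (0 : ℝ) ≤ j := Nat.cast_nonneg j
              rw [show (i : ℝ) - ((i : ℝ) + 1 + j) = -((j : ℝ) + 1) by ring, abs_neg,
                abs_of_nonneg (by linarith)]
            rw [e]
            apply one_div_le_one_div_of_le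
            · exact Real.sqrt_pos.2 (by positivity)
            · exact Real.sqrt_le_sqrt (by linarith)
        _ ≤ ∑ k ∈ range m, 1 / Real.sqrt ((k : ℝ) + 1) := by
            apply sum_le_sum_of_subset_of_nonneg
            · intro j hj
              rw [mem_range] at hj ⊢
              omega
            · intro j _ _
              positivity
  have := sqrt_sum m
  linarith

/-- three coordinates -/
theorem lat_sum (m : ℕ) (i : Fin 3 → Fin m) (D : (Fin 3 → Fin m) → ℝ)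
    (hD : ∀ k, k ≠ i → 1 ≤ D k ∧ ∀ l, |(((i l : Fin m) : ℕ) : ℝ) - ((k l : ℕ) : ℝ)| ≤ D k) :
    ∑ k ∈ univ.erase i, 1 / D k ≤ 32 * (m : ℝ) ^ 2 := by
  have hterm : ∀ k ∈ univ.erase i, 1 / D k ≤
      2 * ((1 / Real.sqrt (|(((i 0 : Fin m) : ℕ) : ℝ) - ((k 0 : ℕ) : ℝ)| + 1)) *
        (1 / Real.sqrt (|(((i 1 : Fin m) : ℕ) : ℝ) - ((k 1 : ℕ) : ℝ)| + 1)) * 1) := by
    intro k hk
    obtain ⟨h1, h2⟩ := hD k (ne_of_mem_erase hk)
    have a0 := h2 0
    have a1 := h2 1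
    set u := |(((i 0 : Fin m) : ℕ) : ℝ) - ((k 0 : ℕ) : ℝ)| with hu
    set v := |(((i 1 : Fin m) : ℕ) : ℝ) - ((k 1 : ℕ) : ℝ)| with hv
    have hu0 : 0 ≤ u := abs_nonneg _
    have hv0 : 0 ≤ v := abs_nonneg _
    have p1 : 0 < Real.sqrt (u + 1) := Real.sqrt_pos.2 (by linarith)
    have p2 : 0 < Real.sqrt (v + 1) := Real.sqrt_pos.2 (by linarith)
    have q1 : Real.sqrt (u + 1) ≤ Real.sqrt (2 * D k) := Real.sqrt_le_sqrt (by linarith)
    have q2 : Real.sqrt (v + 1) ≤ Real.sqrt (2 * D k) := Real.sqrt_le_sqrt (by linarith)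
    have q3 : Real.sqrt (u + 1) * Real.sqrt (v + 1) ≤ 2 * D k := by
      calc Real.sqrt (u + 1) * Real.sqrt (v + 1) ≤ Real.sqrt (2 * D k) * Real.sqrt (2 * D k) :=
            mul_le_mul q1 q2 p2.le (Real.sqrt_nonneg _)
        _ = 2 * D k := Real.mul_self_sqrt (by linarith)
    have e : 2 * ((1 / Real.sqrt (u + 1)) * (1 / Real.sqrt (v + 1)) * 1) =
        2 / (Real.sqrt (u + 1) * Real.sqrt (v + 1)) := by
      field_simp
    rw [e, div_le_div_iff₀ (by linarith) (mul_pos p1 p2)]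
    linarith
  refine (sum_le_sum hterm).trans ?_
  refine (sum_le_sum_of_subset_of_nonneg (subset_univ _) (fun k _ _ => by positivity)).trans ?_
  rw [← mul_sum]
  have hprod : ∑ k : Fin 3 → Fin m,
      ((1 / Real.sqrt (|(((i 0 : Fin m) : ℕ) : ℝ) - ((k 0 : ℕ) : ℝ)| + 1)) *
        (1 / Real.sqrt (|(((i 1 : Fin m) : ℕ) : ℝ) - ((k 1 : ℕ) : ℝ)| + 1)) * 1) =
      (∑ a : Fin m, 1 / Real.sqrt (|(((i 0 : Fin m) : ℕ) : ℝ) - ((a : ℕ) : ℝ)| + 1)) *
      (∑ a : Fin m, 1 / Real.sqrt (|(((i 1 : Fin m) : ℕ) : ℝ) - ((a : ℕ) : ℝ)| + 1)) *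
      (∑ a : Fin m, (1 : ℝ)) := by
    have := Finset.prod_univ_sum (fun _ : Fin 3 => (univ : Finset (Fin m)))
      (fun (l : Fin 3) (a : Fin m) => if l = 0 then
        1 / Real.sqrt (|(((i 0 : Fin m) : ℕ) : ℝ) - ((a : ℕ) : ℝ)| + 1) else if l = 1 then
        1 / Real.sqrt (|(((i 1 : Fin m) : ℕ) : ℝ) - ((a : ℕ) : ℝ)| + 1) else (1 : ℝ))
    rw [Fintype.piFinset_univ] at this
    simp only [Fin.prod_univ_three] at this
    simpa using this.symm
  rw [hprod]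
  have hm0 : (0 : ℝ) ≤ m := Nat.cast_nonneg m
  have s0 := one_sum m (i 0) (i 0).2
  have s1 := one_sum m (i 1) (i 1).2
  have hs : Real.sqrt (m : ℝ) * Real.sqrt m = m := Real.mul_self_sqrt hm0
  have n1 : 0 ≤ ∑ a : Fin m, 1 / Real.sqrt (|(((i 1 : Fin m) : ℕ) : ℝ) - ((a : ℕ) : ℝ)| + 1) :=
    sum_nonneg fun _ _ => by positivity
  have e3 : ∑ a : Fin m, (1 : ℝ) = m := by simp
  rw [e3]
  calc 2 * ((∑ a : Fin m, 1 / Real.sqrt (|(((i 0 : Fin m) : ℕ) : ℝ) - ((a : ℕ) : ℝ)| + 1)) *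
      (∑ a : Fin m, 1 / Real.sqrt (|(((i 1 : Fin m) : ℕ) : ℝ) - ((a : ℕ) : ℝ)| + 1)) * m)
      ≤ 2 * ((4 * Real.sqrt m) * (4 * Real.sqrt m) * m) := by
        apply mul_le_mul_of_nonneg_left _ (by norm_num)
        apply mul_le_mul_of_nonneg_right _ hm0
        exact mul_le_mul s0 s1 n1 (by positivity)
    _ = 32 * (m : ℝ) ^ 2 := by
        have : 2 * ((4 * Real.sqrt m) * (4 * Real.sqrt m) * m) =
          32 * (Real.sqrt m * Real.sqrt m) * (m : ℝ) := by ring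
        rw [this, hs]
        ring

end Pool.Agent.Helper3.PW
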