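import Pool.Agent.Helper3.PW.Bump
import Pool.Agent.Helper3.PW.Lat

/-!
# The position of the bumps
-/

set_option autoImplicit false

namespace Pool.Agent.Helper3.PW

open MeasureTheory Pool.Agent.Helper95.PW

theorem norm_le_nr (y : R3) : ‖y‖ ≤ nr y := by
  apply (pi_norm_le_iff_of_nonneg (nr_nonneg y)).2
  intro i
  rw [Real.norm_eq_abs]
  apply Real.abs_le_sqrt
  fin_cases i
  · show y 0 ^ 2 ≤ _
    nlinarith [sq_nonneg (y 1), sq_nonneg (y 2)]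
  · show y 1 ^ 2 ≤ _
    nlinarith [sq_nonneg (y 0), sq_nonneg (y 2)]
  · show y 2 ^ 2 ≤ _
    nlinarith [sq_nonneg (y 0), sq_nonneg (y 1)]

theorem nr_le (y : R3) (r : ℝ) (hr : 0 ≤ r) (h : ‖y‖ ≤ 5 / 4 * r) : nr y ≤ 3 * r := by
  unfold nr
  apply Real.sqrt_le_iff.2
  refine ⟨by linarith, ?_⟩
  have hc : ∀ i, y i ^ 2 ≤ (5 / 4 * r) ^ 2 := by
    intro i
    have h1 := (norm_le_pi_norm y i).trans h
    rw [Real.norm_eq_abs] at h1
    have h2 := abs_nonneg (y i)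
    nlinarith [sq_abs (y i)]
  have a0 := hc 0
  have a1 := hc 1
  have a2 := hc 2
  nlinarith

/-- index set of the bumps -/
abbrev Ix (m r : ℕ) := (Fin 3 → Fin m) ⊕ Fin r

/-- inverse size -/
noncomputable def lam (m r : ℕ) (a : ℝ) : Ix m r → ℝ := Sum.elim (fun _ => 1 / a) (fun _ => 1)

/-- centre -/
noncomputable def cen (m r : ℕ) (a D : ℝ) : Ix m r → R3 :=
  Sum.elim (fun j l => a * (((j l : ℕ) : ℝ) + 1))
    (fun t l => if l = 0 then D * (((t : ℕ) : ℝ) + 1) else 0)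

/-- sup distance of lattice points -/
noncomputable def Dm {m : ℕ} (j k : Fin 3 → Fin m) : ℝ :=
  ‖(fun l => (((j l : Fin m) : ℕ) : ℝ) - ((k l : ℕ) : ℝ) : R3)‖

theorem Dm_ge {m : ℕ} (j k : Fin 3 → Fin m) (l : Fin 3) :
    |(((j l : Fin m) : ℕ) : ℝ) - ((k l : ℕ) : ℝ)| ≤ Dm j k := by
  have := norm_le_pi_norm (fun l => (((j l : Fin m) : ℕ) : ℝ) - ((k l : ℕ) : ℝ) : R3) l
  rw [Real.norm_eq_abs] at this
  exact this

theorem nat_dist (p q : ℕ) (h : p ≠ q) : (1 : ℝ) ≤ |(p : ℝ) - (q : ℝ)| := by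
  have h1 : (p : ℤ) - (q : ℤ) ≠ 0 := by omega
  have h2 := Int.one_le_abs h1
  have h3 : ((1 : ℤ) : ℝ) ≤ ((|(p : ℤ) - (q : ℤ)| : ℤ) : ℝ) := by exact_mod_cast h2
  push_cast at h3
  exact h3

theorem Dm_one {m : ℕ} (j k : Fin 3 → Fin m) (h : k ≠ j) : 1 ≤ Dm j k := by
  obtain ⟨l, hl⟩ := Function.ne_iff.1 h
  refine le_trans ?_ (Dm_ge j k l)
  apply nat_dist
  intro e
  apply hl
  exact Fin.ext e.symm

theorem dist_in {m : ℕ} (r : ℕ) (a D : ℝ) (ha : 0 < a) (j k : Fin 3 → Fin m) (h : k ≠ j) (x y : R3)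
    (hx : ‖x - cen m r a D (Sum.inl j)‖ ≤ a / 4) (hy : ‖y - cen m r a D (Sum.inl k)‖ ≤ a / 4) :
    a / 2 * Dm j k ≤ ‖x - y‖ := by
  have h1 : ‖cen m r a D (Sum.inl j) - cen m r a D (Sum.inl k)‖ = a * Dm j k := by
    have e : cen m r a D (Sum.inl j) - cen m r a D (Sum.inl k) =
        a • (fun l => (((j l : Fin m) : ℕ) : ℝ) - ((k l : ℕ) : ℝ) : R3) := by
      funext l
      simp [cen]
      ring
    rw [e, norm_smul, Real.norm_eq_abs, abs_of_pos ha]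
    rfl
  have h2 : ‖cen m r a D (Sum.inl j) - cen m r a D (Sum.inl k)‖ ≤
      ‖x - y‖ + ‖x - cen m r a D (Sum.inl j)‖ + ‖y - cen m r a D (Sum.inl k)‖ := by
    have e : cen m r a D (Sum.inl j) - cen m r a D (Sum.inl k) =
        (x - y) - (x - cen m r a D (Sum.inl j)) + (y - cen m r a D (Sum.inl k)) := by abel
    rw [e]
    exact (norm_add_le _ _).trans (add_le_add (norm_sub_le _ _) le_rfl)
  have h3 := Dm_one j k h
  rw [h1] at h2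
  nlinarith

theorem dist_out {m : ℕ} (r : ℕ) (a D : ℝ) (ha : 0 < a) (hD : 1 + 3 * a * m ≤ D) (hm : 1 ≤ m)
    (j : Fin 3 → Fin m) (t : Fin r) (x y : R3)
    (hx : ‖x - cen m r a D (Sum.inl j)‖ ≤ a / 4) (hy : ‖y - cen m r a D (Sum.inr t)‖ ≤ 1 / 4) :
    D / 2 ≤ ‖x - y‖ := by
  have h1 := (norm_le_pi_norm (x - cen m r a D (Sum.inl j)) 0).trans hx
  have h2 := (norm_le_pi_norm (y - cen m r a D (Sum.inr t)) 0).trans hy
  have h3 := norm_le_pi_norm (x - y) 0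
  rw [Real.norm_eq_abs] at h1 h2 h3
  have c1 : cen m r a D (Sum.inl j) 0 = a * (((j 0 : ℕ) : ℝ) + 1) := rfl
  have c2 : cen m r a D (Sum.inr t) 0 = D * (((t : ℕ) : ℝ) + 1) := by simp [cen]
  rw [Pi.sub_apply, c1] at h1
  rw [Pi.sub_apply, c2] at h2
  rw [Pi.sub_apply] at h3
  rw [abs_le] at h1 h2
  have h4 := neg_abs_le (x 0 - y 0)
  have hm' : (1 : ℝ) ≤ m := by exact_mod_cast hm
  have hj : ((j 0 : ℕ) : ℝ) + 1 ≤ m := by exact_mod_cast (j 0).2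
  have ht : (0 : ℝ) ≤ ((t : ℕ) : ℝ) := Nat.cast_nonneg _
  have ham : a ≤ a * m := by nlinarith
  have k1 : a * (((j 0 : ℕ) : ℝ) + 1) ≤ a * m := mul_le_mul_of_nonneg_left hj ha.le
  have k2 : D ≤ D * (((t : ℕ) : ℝ) + 1) := by nlinarith
  nlinarith

theorem dist_outout {m : ℕ} (r : ℕ) (a D : ℝ) (hD : 1 ≤ D) (t u : Fin r) (h : u ≠ t) (x y : R3)
    (hx : ‖x - cen m r a D (Sum.inr t)‖ ≤ 1 / 4) (hy : ‖y - cen m r a D (Sum.inr u)‖ ≤ 1 / 4) :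
    D / 2 ≤ ‖x - y‖ := by
  have h1 := (norm_le_pi_norm (x - cen m r a D (Sum.inr t)) 0).trans hx
  have h2 := (norm_le_pi_norm (y - cen m r a D (Sum.inr u)) 0).trans hy
  have h3 := norm_le_pi_norm (x - y) 0
  rw [Real.norm_eq_abs] at h1 h2 h3
  have c1 : cen m r a D (Sum.inr t) 0 = D * (((t : ℕ) : ℝ) + 1) := by simp [cen]
  have c2 : cen m r a D (Sum.inr u) 0 = D * (((u : ℕ) : ℝ) + 1) := by simp [cen]
  rw [Pi.sub_apply, c1] at h1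
  rw [Pi.sub_apply, c2] at h2
  rw [Pi.sub_apply] at h3
  have h4 : (1 : ℝ) ≤ |((t : ℕ) : ℝ) - ((u : ℕ) : ℝ)| := by
    apply nat_dist
    intro e
    exact h (Fin.ext e.symm)
  have h5 : D ≤ |D * (((t : ℕ) : ℝ) + 1) - D * (((u : ℕ) : ℝ) + 1)| := by
    have e : D * (((t : ℕ) : ℝ) + 1) - D * (((u : ℕ) : ℝ) + 1) =
        D * (((t : ℕ) : ℝ) - ((u : ℕ) : ℝ)) := by ring
    rw [e, abs_mul, abs_of_pos (by linarith)]
    nlinarith
  have h6 : |D * (((t : ℕ) : ℝ) + 1) - D * (((u : ℕ) : ℝ) + 1)| ≤ |x 0 - y 0| +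
      |x 0 - D * (((t : ℕ) : ℝ) + 1)| + |y 0 - D * (((u : ℕ) : ℝ) + 1)| := by
    have e : D * (((t : ℕ) : ℝ) + 1) - D * (((u : ℕ) : ℝ) + 1) = (x 0 - y 0) -
      (x 0 - D * (((t : ℕ) : ℝ) + 1)) + (y 0 - D * (((u : ℕ) : ℝ) + 1)) := by ring
    rw [e]
    exact (abs_add_le _ _).trans (add_le_add (abs_sub _ _) le_rfl)
  linarith

end Pool.Agent.Helper3.PW
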