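import Pool.Agent.Helper95.PW.Defs

/-!
# Product functions and their antisymmetrisation
-/

set_option autoImplicit false

namespace Pool.Agent.Helper3.PW

open MeasureTheory Pool.Agent.Helper95.PW

variable {n : ℕ}

/-- product function -/
noncomputable def pf (g : Fin n → R3 → ℝ) (x : Cf n) : ℝ := ∏ l, g l (x l)

theorem pf_contDiff (g : Fin n → R3 → ℝ) (hg : ∀ l, ContDiff ℝ (⊤ : ℕ∞) (g l)) :
    ContDiff ℝ (⊤ : ℕ∞) (pf g) := by
  unfold pf
  apply contDiff_prod
  intro l _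
  exact (hg l).comp (contDiff_apply ℝ R3 l)

theorem pf_compact (g : Fin n → R3 → ℝ) (hg : ∀ l, HasCompactSupport (g l)) :
    HasCompactSupport (pf g) := by
  apply HasCompactSupport.intro (K := Set.pi Set.univ (fun l => tsupport (g l)))
  · exact isCompact_univ_pi (fun l => hg l)
  · intro x hx
    rw [Set.mem_univ_pi] at hx
    push Not at hx
    obtain ⟨l, hl⟩ := hx
    unfold pf
    exact Finset.prod_eq_zero (Finset.mem_univ l) (image_eq_zero_of_notMem_tsupport hl)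

theorem pf_tsupport (g : Fin n → R3 → ℝ) (x : Cf n) (hx : x ∈ tsupport (pf g)) :
    ∀ l, x l ∈ tsupport (g l) := by
  have hcl : IsClosed (Set.pi Set.univ (fun l => tsupport (g l))) :=
    isClosed_set_pi (fun l _ => isClosed_tsupport (g l))
  have hsub : tsupport (pf g) ⊆ Set.pi Set.univ (fun l => tsupport (g l)) := by
    apply closure_minimal _ hcl
    intro y hy
    rw [Set.mem_univ_pi]
    intro l
    apply subset_tsupport
    intro h0
    apply hy
    unfold pf
    exact Finset.prod_eq_zero (Finset.mem_univ l) h0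
  have := hsub hx
  rw [Set.mem_univ_pi] at this
  exact this

theorem dv_pf (g : Fin n → R3 → ℝ) (hg : ∀ l, Differentiable ℝ (g l)) (k : Fin n) (i : Fin 3)
    (x : Cf n) : dv k i (pf g) x = pf (Function.update g k (pd i (g k))) x := by
  unfold dv
  have h : ∀ l, HasFDerivAt (fun x : Cf n => g l (x l))
      ((fderiv ℝ (g l) (x l)).comp (ContinuousLinearMap.proj (R := ℝ) (φ := fun _ : Fin n => R3) l))
      x := by
    intro l
    exact ((hg l (x l)).hasFDerivAt).comp x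
      (ContinuousLinearMap.proj (R := ℝ) (φ := fun _ : Fin n => R3) l).hasFDerivAt
  have h2 := HasFDerivAt.finsetProd (u := Finset.univ) (fun l _ => h l)
  have e0 : (pf g) = fun x : Cf n => ∏ l, g l (x l) := rfl
  have e1 : fderiv ℝ (pf g) x = ∑ i, (∏ j ∈ Finset.univ.erase i, g j (x j)) •
      ((fderiv ℝ (g i) (x i)).comp (ContinuousLinearMap.proj (R := ℝ) (φ := fun _ : Fin n => R3) i)) := by
    rw [e0]
    exact h2.fderiv
  rw [e1]
  simp only [_root_.sum_apply, _root_.smul_apply,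
    ContinuousLinearMap.comp_apply, ContinuousLinearMap.proj_apply, smul_eq_mul]
  rw [Finset.sum_eq_single k]
  · rw [Pi.single_eq_same]
    unfold pf
    rw [← Finset.mul_prod_erase Finset.univ _ (Finset.mem_univ k)]
    rw [Function.update_self, mul_comm]
    congr 1
    apply Finset.prod_congr rfl
    intro j hj
    rw [Function.update_of_ne (Finset.ne_of_mem_erase hj)]
  · intro j _ hj
    rw [Pi.single_eq_of_ne hj]
    simp
  · intro h
    exact absurd (Finset.mem_univ k) h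

theorem int_pf_sq (g : Fin n → R3 → ℝ) : ∫ x, pf g x ^ 2 = ∏ l, ∫ y, g l y ^ 2 := by
  have : ∀ x, pf g x ^ 2 = ∏ l, (fun y => g l y ^ 2) (x l) := by
    intro x
    unfold pf
    rw [Finset.prod_pow]
  simp_rw [this]
  exact integral_fintype_prod_volume_eq_prod (fun l y => g l y ^ 2)

/-- antisymmetrised product -/
noncomputable def ps (f : Fin n → R3 → ℝ) (x : Cf n) : ℝ :=
  ∑ σ : Equiv.Perm (Fin n), ((Equiv.Perm.sign σ : ℤ) : ℝ) * pf (fun l => f (σ⁻¹ l)) x

theorem sign_sq (σ : Equiv.Perm (Fin n)) :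
    ((Equiv.Perm.sign σ : ℤ) : ℝ) * ((Equiv.Perm.sign σ : ℤ) : ℝ) = 1 := by
  have h : (Equiv.Perm.sign σ : ℤ) * (Equiv.Perm.sign σ : ℤ) = 1 := by
    rcases Int.units_eq_one_or (Equiv.Perm.sign σ) with h | h <;> rw [h] <;> simp
  exact_mod_cast h

theorem ps_anti (f : Fin n → R3 → ℝ) (π : Equiv.Perm (Fin n)) (x : Cf n) :
    ps f (fun i => x (π i)) = ((Equiv.Perm.sign π : ℤ) : ℝ) * ps f x := by
  have e2 : ps f x = ∑ σ : Equiv.Perm (Fin n),
      ((Equiv.Perm.sign (π * σ) : ℤ) : ℝ) * pf (fun l => f ((π * σ)⁻¹ l)) x := by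
    unfold ps
    exact (Equiv.sum_comp (Equiv.mulLeft π) (fun σ : Equiv.Perm (Fin n) =>
      ((Equiv.Perm.sign σ : ℤ) : ℝ) * pf (fun l => f (σ⁻¹ l)) x)).symm
  rw [e2, Finset.mul_sum]
  unfold ps
  apply Finset.sum_congr rfl
  intro σ _
  have e1 : pf (fun l => f (σ⁻¹ l)) (fun i => x (π i)) = pf (fun l => f ((π * σ)⁻¹ l)) x := by
    unfold pf
    rw [← Equiv.prod_comp π (fun l => f ((π * σ)⁻¹ l) (x l))]
    apply Finset.prod_congr rfl
    intro l _
    simp
  rw [e1, Equiv.Perm.sign_mul]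
  push_cast
  have := sign_sq π
  calc ((Equiv.Perm.sign σ : ℤ) : ℝ) * pf (fun l => f ((π * σ)⁻¹ l)) x
      = (((Equiv.Perm.sign π : ℤ) : ℝ) * ((Equiv.Perm.sign π : ℤ) : ℝ)) *
        (((Equiv.Perm.sign σ : ℤ) : ℝ) * pf (fun l => f ((π * σ)⁻¹ l)) x) := by rw [this, one_mul]
    _ = _ := by ring

theorem ps_contDiff (f : Fin n → R3 → ℝ) (hf : ∀ l, ContDiff ℝ (⊤ : ℕ∞) (f l)) :
    ContDiff ℝ (⊤ : ℕ∞) (ps f) := by
  unfold ps
  apply ContDiff.sum
  intro σ _
  exact contDiff_const.mul (pf_contDiff _ (fun l => hf _))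

theorem ps_compact (f : Fin n → R3 → ℝ) (hf : ∀ l, HasCompactSupport (f l)) :
    HasCompactSupport (ps f) := by
  apply HasCompactSupport.intro
    (K := ⋃ σ : Equiv.Perm (Fin n), tsupport (pf (fun l => f (σ⁻¹ l))))
  · exact isCompact_iUnion (fun σ => pf_compact _ (fun l => hf _))
  · intro x hx
    rw [Set.mem_iUnion] at hx
    push Not at hx
    unfold ps
    apply Finset.sum_eq_zero
    intro σ _
    rw [image_eq_zero_of_notMem_tsupport (hx σ), mul_zero]

/-- the disjointness of the supports of two different permuted products -/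
theorem pf_disj (f : Fin n → R3 → ℝ) (hd : ∀ i j y, y ∈ tsupport (f i) → y ∈ tsupport (f j) → i = j)
    (σ τ : Equiv.Perm (Fin n)) (x : Cf n) (h1 : x ∈ tsupport (pf (fun l => f (σ⁻¹ l))))
    (h2 : x ∈ tsupport (pf (fun l => f (τ⁻¹ l)))) : σ = τ := by
  have : σ⁻¹ = τ⁻¹ := by
    apply Equiv.ext
    intro l
    exact hd _ _ (x l) (pf_tsupport _ x h1 l) (pf_tsupport _ x h2 l)
  exact inv_injective this

theorem sq_sum_eq {ι : Type*} (s : Finset ι) (a : ι → ℝ) [DecidableEq ι]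
    (h : ∀ i ∈ s, ∀ j ∈ s, i ≠ j → a i * a j = 0) : (∑ i ∈ s, a i) ^ 2 = ∑ i ∈ s, a i ^ 2 := by
  rw [pow_two, Finset.sum_mul_sum]
  apply Finset.sum_congr rfl
  intro i hi
  rw [Finset.sum_eq_single i, pow_two]
  · intro j hj hne
    exact h i hi j hj (Ne.symm hne)
  · intro h'
    exact absurd hi h'

theorem ps_sq (f : Fin n → R3 → ℝ)
    (hd : ∀ i j y, y ∈ tsupport (f i) → y ∈ tsupport (f j) → i = j) (x : Cf n) :
    ps f x ^ 2 = ∑ σ : Equiv.Perm (Fin n), pf (fun l => f (σ⁻¹ l)) x ^ 2 := by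
  classical
  unfold ps
  rw [sq_sum_eq]
  · apply Finset.sum_congr rfl
    intro σ _
    rw [mul_pow, pow_two, sign_sq, one_mul]
  · intro σ _ τ _ hne
    by_cases h1 : x ∈ tsupport (pf (fun l => f (σ⁻¹ l)))
    · by_cases h2 : x ∈ tsupport (pf (fun l => f (τ⁻¹ l)))
      · exact absurd (pf_disj f hd σ τ x h1 h2) hne
      · rw [image_eq_zero_of_notMem_tsupport h2]; ring
    · rw [image_eq_zero_of_notMem_tsupport h1]; ring

theorem fderiv_zero_of_notMem {u : Cf n → ℝ} {x : Cf n} (hx : x ∉ tsupport u) :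
    fderiv ℝ u x = 0 := by
  have h : x ∉ tsupport (fderiv ℝ u) := fun h => hx (tsupport_fderiv_subset ℝ h)
  exact image_eq_zero_of_notMem_tsupport h

theorem dv_ps_sq (f : Fin n → R3 → ℝ) (hf : ∀ l, ContDiff ℝ (⊤ : ℕ∞) (f l))
    (hd : ∀ i j y, y ∈ tsupport (f i) → y ∈ tsupport (f j) → i = j) (k : Fin n) (i : Fin 3)
    (x : Cf n) :
    dv k i (ps f) x ^ 2 = ∑ σ : Equiv.Perm (Fin n), dv k i (pf (fun l => f (σ⁻¹ l))) x ^ 2 := by
  classical
  have hdf : ∀ σ : Equiv.Perm (Fin n), DifferentiableAt ℝ (pf (fun l => f (σ⁻¹ l))) x := by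
    intro σ
    exact (pf_contDiff _ (fun l => hf _)).differentiable (by simp) x
  have e : dv k i (ps f) x = ∑ σ : Equiv.Perm (Fin n),
      ((Equiv.Perm.sign σ : ℤ) : ℝ) * dv k i (pf (fun l => f (σ⁻¹ l))) x := by
    unfold dv
    have e0 : ps f = fun x => ∑ σ : Equiv.Perm (Fin n),
      ((Equiv.Perm.sign σ : ℤ) : ℝ) * pf (fun l => f (σ⁻¹ l)) x := rfl
    rw [e0, fderiv_fun_sum (fun σ _ => (hdf σ).const_mul _)]
    simp only [_root_.sum_apply]
    apply Finset.sum_congr rfl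
    intro σ _
    rw [fderiv_const_mul (hdf σ)]
    rfl
  rw [e, sq_sum_eq]
  · apply Finset.sum_congr rfl
    intro σ _
    rw [mul_pow, pow_two, sign_sq, one_mul]
  · intro σ _ τ _ hne
    by_cases h1 : x ∈ tsupport (pf (fun l => f (σ⁻¹ l)))
    · by_cases h2 : x ∈ tsupport (pf (fun l => f (τ⁻¹ l)))
      · exact absurd (pf_disj f hd σ τ x h1 h2) hne
      · unfold dv
        rw [fderiv_zero_of_notMem h2]; simp
    · unfold dv
      rw [fderiv_zero_of_notMem h1]; simp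

end Pool.Agent.Helper3.PW
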