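import Pool.Agent.Helper3.PW.EnZ

/-!
# Translation of the trial functions
-/

set_option autoImplicit false

namespace Pool.Agent.Helper3.PW

open MeasureTheory Pool.Agent.Helper95.PW

variable {n : ℕ}

/-- translation of a wave function by `c` -/
noncomputable def sh (c : R3) (ψ : Wf n) : Wf n := fun s x => ψ s (fun k => x k - c)

theorem int_sh (c : R3) (F : Cf n → ℝ) : ∫ x : Cf n, F (fun k => x k - c) = ∫ x, F x :=
  integral_sub_right_eq_self F (fun _ => c)

theorem dv_sh (c : R3) (v : Cf n → ℝ) (k : Fin n) (i : Fin 3) (x : Cf n) :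
    dv k i (fun x => v (fun k => x k - c)) x = dv k i v (fun k => x k - c) := by
  unfold dv
  have : (fun x : Cf n => v (fun k => x k - c)) = fun x => v (x - fun _ => c) := rfl
  rw [this, fderiv_comp_sub]
  rfl

theorem sh_Sm (c : R3) (ψ : Wf n) (h : Sm ψ) : Sm (sh c ψ) := by
  intro s
  constructor
  · have : sh c ψ s = fun x => ψ s (x - fun _ => c) := rfl
    rw [this]
    exact (h s).1.comp (contDiff_id.sub contDiff_const)
  · have : sh c ψ s = (ψ s) ∘ (Homeomorph.subRight (fun _ : Fin n => c)) := rfl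
    rw [this]
    exact (h s).2.comp_homeomorph _

theorem sh_Anti (c : R3) (ψ : Wf n) (h : Anti ψ) : Anti (sh c ψ) := by
  intro π s x
  exact h π s (fun k => x k - c)

theorem sh_sq (c : R3) (ψ : Wf n) : Helper95.PW.sq (sh c ψ) = Helper95.PW.sq ψ := by
  unfold Helper95.PW.sq
  apply Finset.sum_congr rfl
  intro s _
  exact int_sh c (fun x => ψ s x ^ 2)

theorem sh_kin (c : R3) (ψ : Wf n) : kin (sh c ψ) = kin ψ := by
  unfold kin Helper95.PW.sq
  apply Finset.sum_congr rfl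
  intro k _
  apply Finset.sum_congr rfl
  intro i _
  apply Finset.sum_congr rfl
  intro s _
  have : ∀ x, dv k i (sh c ψ s) x ^ 2 = (fun x => dv k i (ψ s) x ^ 2) (fun k => x k - c) := by
    intro x
    show dv k i (fun x => ψ s (fun k => x k - c)) x ^ 2 = _
    rw [dv_sh]
  simp_rw [this]
  exact int_sh c (fun x => dv k i (ψ s) x ^ 2)

theorem sh_pair (c : R3) (ψ : Wf n) : pair (sh c ψ) = pair ψ := by
  unfold pair
  apply Finset.sum_congr rfl
  intro s _
  have : ∀ x, rep x * sh c ψ s x ^ 2 = (fun x => rep x * ψ s x ^ 2) (fun k => x k - c) := by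
    intro x
    show rep x * ψ s (fun k => x k - c) ^ 2 = rep (fun k => x k - c) * ψ s (fun k => x k - c) ^ 2
    congr 1
    unfold rep
    simp only [sub_sub_sub_cancel_right]
  simp_rw [this]
  exact int_sh c (fun x => rep x * ψ s x ^ 2)

theorem sh_one (c : R3) (w : R3 → ℝ) (ψ : Wf n) :
    one (fun y => w (y - c)) (sh c ψ) = one w ψ := by
  unfold one
  apply Finset.sum_congr rfl
  intro s _
  exact int_sh c (fun x => (∑ k, w (x k)) * ψ s x ^ 2)

/-- the trial function at a nucleus in `c` -/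
theorem tr_at (n : ℕ) (Z B : ℝ) (h : Tr n Z B) (c : R3) : ∃ ψ : Wf n, Sm ψ ∧ Anti ψ ∧
    0 < Helper95.PW.sq ψ ∧
    kin ψ + pair ψ - Z * one (fun y => 1 / nr (y - c)) ψ ≤ B * Helper95.PW.sq ψ := by
  obtain ⟨ψ, h1, h2, h3, h4⟩ := h
  refine ⟨sh c ψ, sh_Sm c ψ h1, sh_Anti c ψ h2, by rw [sh_sq]; exact h3, ?_⟩
  rw [sh_sq, sh_kin, sh_pair, sh_one c (fun y => 1 / nr y) ψ]
  exact h4

/-- any charge `Z ≤ n` with `Z` large, nucleus in any point -/
theorem tr_atZ : ∃ c N₀ : ℝ, 0 < c ∧ ∀ (n : ℕ) (Z : ℝ) (p : R3), N₀ ≤ Z → Z ≤ n →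
    ∃ ψ : Wf n, Sm ψ ∧ Anti ψ ∧ 0 < Helper95.PW.sq ψ ∧
    kin ψ + pair ψ - Z * one (fun y => 1 / nr (y - p)) ψ ≤
      -(c * Z ^ (7 / 3 : ℝ)) * Helper95.PW.sq ψ := by
  obtain ⟨c, N₀, hc, h⟩ := Z2.en_trZ
  exact ⟨c, N₀, hc, fun n Z p h1 h2 => tr_at n Z _ (h n Z h1 h2) p⟩

end Pool.Agent.Helper3.PW
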