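import Pool.Agent.Helper95.PW.Stmts
import Pool.Agent.Helper3.PW.EnLow

/-!
# The row `TRI`
-/

set_option autoImplicit false

namespace Pool.Agent.Helper3.PW

open Pool.Agent.Helper95.PW

theorem st_TRI : ST_TRI := by
  obtain ⟨c, N₀, hc, h⟩ := en_tr
  refine ⟨c, ⌈N₀⌉₊, hc, fun n hn => ?_⟩
  exact h n ((Nat.le_ceil N₀).trans (by exact_mod_cast hn))

end Pool.Agent.Helper3.PW
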