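import Pool.Agent.Helper95.PM.Stmts
import Pool.Agent.Helper3.PW.EnZ

/-!
# The row `TRI1`
-/

set_option autoImplicit false

namespace Pool.Agent.Helper3.PW

open Pool.Agent.Helper95.PW

theorem st_TRI1 : ST_TRI1 := by
  obtain ⟨c, N₀, hc, h⟩ := Z2.en_trZ
  refine ⟨c, max N₀ 1, hc, lt_of_lt_of_le one_pos (le_max_right _ _), fun n Z h1 h2 => ?_⟩
  exact h n Z ((le_max_left _ _).trans h1) h2

end Pool.Agent.Helper3.PW
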